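import Mathlib

/-!
# The binomial series with exponent `q / m`: remainder and denominators
-/

namespace Pool.Agent.Lib_MP_6050fa

open Finset

theorem choose_succ_mul (α : ℝ) (j : ℕ) :
    Ring.choose α (j + 1) * (j + 1) = Ring.choose α j * (α - j) := by
  have h1 := Ring.descPochhammer_eq_factorial_smul_choose α (j + 1)
  have h2 := Ring.descPochhammer_eq_factorial_smul_choose α j
  have h3 : (descPochhammer ℤ (j + 1)).smeval α = (descPochhammer ℤ j).smeval α * (α - j) := by
    simp [descPochhammer_succ_right, Polynomial.smeval_mul, Polynomial.smeval_natCast]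
  rw [h1, h2, nsmul_eq_mul, nsmul_eq_mul, Nat.factorial_succ] at h3
  push_cast at h3
  have h4 : (j.factorial : ℝ) ≠ 0 := by exact_mod_cast Nat.factorial_ne_zero j
  apply mul_left_cancel₀ h4
  linear_combination h3

theorem binom_hasSum {α t : ℝ} (ht : |t| < 1) :
    HasSum (fun n : ℕ => Ring.choose α n * t ^ n) ((1 + t) ^ α) := by
  have h := (Real.one_add_rpow_hasFPowerSeriesOnBall_zero (a := α)).hasSum (y := t) (by
    rw [← ENNReal.ofReal_one, Metric.eball_ofReal, mem_ball_zero_iff]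
    exact ht)
  rw [zero_add] at h
  have h1 : (fun n : ℕ => Ring.choose α n * t ^ n) = fun n => binomialSeries ℝ α n fun _ => t := by
    funext n
    rw [binomialSeries_apply, List.prod_ofFn]
    simp
  rw [h1]
  exact h

/-- the remainder of the binomial series -/
theorem binom_rem {α t : ℝ} {J : ℕ} (h0 : 0 ≤ α) (h1 : α < J + 1) (ht : |t| ≤ 1 / 4) :
    |(1 + t) ^ α - ∑ j ∈ range (J + 1), Ring.choose α j * t ^ j| ≤
        2 * (|Ring.choose α (J + 1)| * |t| ^ (J + 1)) ∧
      |Ring.choose α (J + 1)| * |t| ^ (J + 1) ≤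
        2 * |(1 + t) ^ α - ∑ j ∈ range (J + 1), Ring.choose α j * t ^ j| := by
  set c := fun j => Ring.choose α j with hc
  have hmono : ∀ i : ℕ, |c (i + (J + 1))| ≤ |c (J + 1)| := by
    intro i
    induction i with
    | zero => rw [zero_add]
    | succ i ih =>
      refine le_trans ?_ ih
      have h2 := choose_succ_mul α (i + (J + 1))
      have h3 : (0 : ℝ) < ((i + (J + 1) : ℕ) : ℝ) + 1 := by positivity
      have h4 : |c (i + 1 + (J + 1))| * (((i + (J + 1) : ℕ) : ℝ) + 1) =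
          |c (i + (J + 1))| * |α - ((i + (J + 1) : ℕ) : ℝ)| := by
        rw [← abs_mul, ← h2, abs_mul, abs_of_pos h3]
        congr 3
        ring
      have h5 : |α - ((i + (J + 1) : ℕ) : ℝ)| ≤ ((i + (J + 1) : ℕ) : ℝ) + 1 := by
        rw [abs_le]
        constructor
        · linarith
        · have : (0 : ℝ) ≤ ((i : ℕ) : ℝ) := Nat.cast_nonneg i
          push_cast
          linarith
      have h6 : |c (i + 1 + (J + 1))| * (((i + (J + 1) : ℕ) : ℝ) + 1) ≤
          |c (i + (J + 1))| * (((i + (J + 1) : ℕ) : ℝ) + 1) := by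
        rw [h4]
        exact mul_le_mul_of_nonneg_left h5 (abs_nonneg _)
      exact le_of_mul_le_mul_right h6 h3
  have hs := binom_hasSum (α := α) (t := t) (by linarith)
  set ρ := (1 + t) ^ α - ∑ j ∈ range (J + 1), Ring.choose α j * t ^ j with hρ
  have hs1 : HasSum (fun i : ℕ => Ring.choose α (i + (J + 1)) * t ^ (i + (J + 1))) ρ :=
    (hasSum_nat_add_iff' (J + 1)).2 hs
  have hs2 : HasSum (fun i : ℕ => Ring.choose α (i + 1 + (J + 1)) * t ^ (i + 1 + (J + 1)))
      (ρ - Ring.choose α (J + 1) * t ^ (J + 1)) := by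
    have h2 := (hasSum_nat_add_iff' 1).2 hs1
    rw [Finset.sum_range_one, zero_add] at h2
    exact h2
  have habs : 0 ≤ |t| := abs_nonneg t
  have hg : HasSum (fun i : ℕ => |c (J + 1)| * |t| ^ (J + 1) * |t| * |t| ^ i)
      (|c (J + 1)| * |t| ^ (J + 1) * |t| * (1 - |t|)⁻¹) :=
    (hasSum_geometric_of_lt_one habs (by linarith)).mul_left _
  have hb := hs2.norm_le_of_bounded hg (fun i => by
    rw [Real.norm_eq_abs, abs_mul, abs_pow]
    have h2 : |t| ^ (i + 1 + (J + 1)) = |t| ^ (J + 1) * |t| * |t| ^ i := by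
      rw [← pow_succ, ← pow_add]
      congr 1
      omega
    rw [h2]
    calc |Ring.choose α (i + 1 + (J + 1))| * (|t| ^ (J + 1) * |t| * |t| ^ i)
        ≤ |c (J + 1)| * (|t| ^ (J + 1) * |t| * |t| ^ i) :=
          mul_le_mul_of_nonneg_right (hmono (i + 1)) (by positivity)
      _ = |c (J + 1)| * |t| ^ (J + 1) * |t| * |t| ^ i := by ring)
  rw [Real.norm_eq_abs] at hb
  have hX : 0 ≤ |c (J + 1)| * |t| ^ (J + 1) := by positivity
  have hb2 : |ρ - Ring.choose α (J + 1) * t ^ (J + 1)| ≤ 1 / 2 * (|c (J + 1)| * |t| ^ (J + 1)) := by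
    refine hb.trans ?_
    have h2 : |t| * (1 - |t|)⁻¹ ≤ 1 / 2 := by
      rw [mul_inv_le_iff₀ (by linarith)]
      linarith
    calc |c (J + 1)| * |t| ^ (J + 1) * |t| * (1 - |t|)⁻¹ = (|c (J + 1)| * |t| ^ (J + 1)) * (|t| * (1 - |t|)⁻¹) := by ring
      _ ≤ (|c (J + 1)| * |t| ^ (J + 1)) * (1 / 2) := mul_le_mul_of_nonneg_left h2 hX
      _ = 1 / 2 * (|c (J + 1)| * |t| ^ (J + 1)) := by ring
  have h3 : |Ring.choose α (J + 1) * t ^ (J + 1)| = |c (J + 1)| * |t| ^ (J + 1) := by
    rw [abs_mul, abs_pow]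
  have h4 := abs_sub_abs_le_abs_sub ρ (Ring.choose α (J + 1) * t ^ (J + 1))
  have h5 := abs_sub_abs_le_abs_sub (Ring.choose α (J + 1) * t ^ (J + 1)) ρ
  rw [abs_sub_comm (Ring.choose α (J + 1) * t ^ (J + 1)) ρ] at h5
  rw [h3] at h4 h5
  change |ρ| ≤ 2 * (|c (J + 1)| * |t| ^ (J + 1)) ∧ |c (J + 1)| * |t| ^ (J + 1) ≤ 2 * |ρ|
  constructor <;> linarith

/-- the numerators `∏_{i < j} (q - i m)` -/
def num (q m : ℕ) (j : ℕ) : ℤ := ∏ i ∈ range j, ((q : ℤ) - i * m)

theorem choose_num {q m : ℕ} (hm : 0 < m) (j : ℕ) :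
    (m : ℝ) ^ j * j.factorial * Ring.choose ((q : ℝ) / m) j = num q m j := by
  induction j with
  | zero => simp [num]
  | succ j ih =>
    have h1 := choose_succ_mul ((q : ℝ) / m) j
    have hm' : (m : ℝ) ≠ 0 := by positivity
    have h2 : (num q m (j + 1) : ℝ) = num q m j * ((q : ℝ) - j * m) := by
      unfold num
      rw [Finset.prod_range_succ]
      push_cast
      ring
    rw [h2, ← ih, Nat.factorial_succ]
    have h3 : ((q : ℝ) - j * m) = m * ((q : ℝ) / m - j) := by
      field_simp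
    rw [h3]
    push_cast
    linear_combination (m : ℝ) ^ (j + 1) * j.factorial * h1

end Pool.Agent.Lib_MP_6050fa
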