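import Pool.Agent.Lib_MP_6050fa.Ideals

/-!
MP_6050fa_nt.  The number of reduced ideals `(c, b + √(-N))`, `3 c ^ 2 ≤ 4 N`, `0 ≤ b < c`.
-/

namespace Pool.Agent.Lib_MP_6050fa

theorem card_S {n : ℕ} (hn : 2 ≤ n) : (S n).card < n := by
  rcases Nat.lt_or_ge n 4 with h4 | h4
  · interval_cases n <;> decide
  · set K := Nat.sqrt (4 * n / 3) with hK
    have hK1 : 3 * K ^ 2 ≤ 4 * n := by
      have := Nat.sqrt_le' (4 * n / 3)
      rw [← hK] at this
      omega
    have hsub : S n ⊆ (Finset.range (K + 1)).biUnion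
        (fun c => (Finset.range c).image (fun b => (c, b))) := by
      rintro ⟨c, b⟩ hcb
      unfold S at hcb
      simp only [Finset.mem_filter, Finset.mem_product, Finset.mem_range] at hcb
      obtain ⟨_, h1, h2, h3, _⟩ := hcb
      rw [Finset.mem_biUnion]
      refine ⟨c, ?_, ?_⟩
      · rw [Finset.mem_range, Nat.lt_succ_iff, hK, Nat.le_sqrt']
        omega
      · rw [Finset.mem_image]
        exact ⟨b, Finset.mem_range.2 h2, rfl⟩
    have h5 : (S n).card ≤ ∑ c ∈ Finset.range (K + 1), c := by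
      refine (Finset.card_le_card hsub).trans (Finset.card_biUnion_le.trans ?_)
      refine Finset.sum_le_sum fun c _ => ?_
      exact Finset.card_image_le.trans (by simp)
    have h6 := Finset.sum_range_id_mul_two (K + 1)
    simp only [Nat.add_sub_cancel] at h6
    have h7 : (K + 1) * K < 2 * n := by
      rcases Nat.lt_or_ge K 3 with hK3 | hK3
      · interval_cases K <;> omega
      · nlinarith
    omega

/-- solutions of `b ^ 2 = -N` modulo `c` -/
def B (N c : ℕ) : Finset ℕ := (Finset.range c).filter (fun b => c ∣ b ^ 2 + N)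

/-- numbers in `[0, c)` congruent to `b₁` modulo `r` and to `-b₁` modulo `s` -/
def F (c b₁ : ℕ) (p : ℕ × ℕ) : Finset ℕ :=
  (Finset.range c).filter (fun b => (p.1 : ℤ) ∣ (b : ℤ) - b₁ ∧ (p.2 : ℤ) ∣ (b : ℤ) + b₁)

theorem card_F {c b₁ : ℕ} {p : ℕ × ℕ} (hc : 0 < c) (hp : p.1 * p.2 = c) :
    (F c b₁ p).card ≤ Nat.gcd p.1 p.2 := by
  have h1 : 0 < p.1 := Nat.pos_of_ne_zero (fun h => by rw [h, Nat.zero_mul] at hp; omega)
  have h2 : 0 < p.2 := Nat.pos_of_ne_zero (fun h => by rw [h, Nat.mul_zero] at hp; omega)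
  set L := Nat.lcm p.1 p.2 with hL
  have hL0 : 0 < L := Nat.lcm_pos h1 h2
  have hgL : Nat.gcd p.1 p.2 * L = c := by rw [hL, Nat.gcd_mul_lcm, hp]
  have hinj : Set.InjOn (fun b : ℕ => b / L) (F c b₁ p : Set ℕ) := by
    intro b hb b' hb' hbb
    simp only [F, Finset.coe_filter, Finset.mem_range, Set.mem_ofPred_eq] at hb hb'
    obtain ⟨_, hb1, hb2⟩ := hb
    obtain ⟨_, hb1', hb2'⟩ := hb'
    have hbb' : b / L = b' / L := hbb
    have e1 : (p.1 : ℤ) ∣ (b : ℤ) - b' := by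
      have := dvd_sub hb1 hb1'
      rwa [show (b : ℤ) - b₁ - (b' - b₁) = b - b' by ring] at this
    have e2 : (p.2 : ℤ) ∣ (b : ℤ) - b' := by
      have := dvd_sub hb2 hb2'
      rwa [show (b : ℤ) + b₁ - (b' + b₁) = b - b' by ring] at this
    have e1' : b ≡ b' [MOD p.1] := by
      rw [Nat.modEq_iff_dvd]
      rw [← neg_sub]
      exact (dvd_neg).2 e1
    have e2' : b ≡ b' [MOD p.2] := by
      rw [Nat.modEq_iff_dvd]
      rw [← neg_sub]
      exact (dvd_neg).2 e2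
    have e3 : b ≡ b' [MOD L] := by
      rw [Nat.modEq_iff_dvd] at e1' e2' ⊢
      rw [hL, ← Int.natAbs_dvd_natAbs] at *
      simp only [Int.natAbs_natCast] at *
      exact Nat.lcm_dvd e1' e2'
    have e4 : b % L = b' % L := e3
    have h3 := Nat.div_add_mod b L
    have h4 := Nat.div_add_mod b' L
    rw [hbb', e4] at h3
    omega
  have hmaps : ∀ b ∈ F c b₁ p, b / L ∈ Finset.range (Nat.gcd p.1 p.2) := by
    intro b hb
    simp only [F, Finset.mem_filter, Finset.mem_range] at hb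
    rw [Finset.mem_range, Nat.div_lt_iff_lt_mul hL0, hgL]
    exact hb.1
  have := Finset.card_le_card_of_injOn (fun b : ℕ => b / L) hmaps hinj
  simpa using this

theorem card_B {N c : ℕ} (hc : 0 < c) :
    (B N c).card ≤ ∑ p ∈ c.divisorsAntidiagonal, Nat.gcd p.1 p.2 := by
  rcases (B N c).eq_empty_or_nonempty with h0 | ⟨b₁, hb₁⟩
  · rw [h0]; simp
  · have hsub : B N c ⊆ c.divisorsAntidiagonal.biUnion (F c b₁) := by
      intro b hb
      simp only [B, Finset.mem_filter, Finset.mem_range] at hb hb₁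
      rw [Finset.mem_biUnion]
      set r := Int.gcd (c : ℤ) ((b : ℤ) - b₁) with hr
      have hr1 : (r : ℤ) ∣ (c : ℤ) := Int.gcd_dvd_left _ _
      have hr2 : (r : ℤ) ∣ (b : ℤ) - b₁ := Int.gcd_dvd_right _ _
      have hr3 : r ∣ c := by exact_mod_cast hr1
      obtain ⟨s, hs⟩ := hr3
      refine ⟨(r, s), ?_, ?_⟩
      · rw [Nat.mem_divisorsAntidiagonal]
        exact ⟨hs.symm, hc.ne'⟩
      · simp only [F, Finset.mem_filter, Finset.mem_range]
        refine ⟨hb.1, hr2, ?_⟩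
        have hr0 : 0 < r := Nat.pos_of_ne_zero (fun h => by rw [h, Nat.zero_mul] at hs; omega)
        have h1 : (c : ℤ) ∣ ((b : ℤ) - b₁) * (b + b₁) := by
          have h2 : (c : ℤ) ∣ ((b : ℤ) ^ 2 + N) - ((b₁ : ℤ) ^ 2 + N) := by
            apply dvd_sub
            · exact_mod_cast hb.2
            · exact_mod_cast hb₁.2
          rwa [show ((b : ℤ) ^ 2 + N) - ((b₁ : ℤ) ^ 2 + N) = ((b : ℤ) - b₁) * (b + b₁) by ring] at h2
        have h3 := Int.isCoprime_iff_gcd_eq_one.2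
          (Int.gcd_div_gcd_div_gcd (i := (c : ℤ)) (j := (b : ℤ) - b₁) hr0)
        rw [← hr] at h3
        obtain ⟨w, hw⟩ := hr2
        have hr0' : (r : ℤ) ≠ 0 := by exact_mod_cast hr0.ne'
        have hcs : (c : ℤ) / r = s := by
          rw [hs]; push_cast; exact Int.mul_ediv_cancel_left _ hr0'
        have hww : ((b : ℤ) - b₁) / r = w := by
          rw [hw]; exact Int.mul_ediv_cancel_left _ hr0'
        rw [hcs, hww] at h3
        have h4 : (s : ℤ) ∣ w * (b + b₁) := by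
          have h5 : (r : ℤ) * s ∣ r * (w * (b + b₁)) := by
            have : (c : ℤ) = r * s := by rw [hs]; push_cast; ring
            rw [← this, ← mul_assoc, ← hw]
            exact h1
          exact (mul_dvd_mul_iff_left hr0').1 h5
        exact h3.dvd_of_dvd_mul_left h4
    refine (Finset.card_le_card hsub).trans (Finset.card_biUnion_le.trans ?_)
    refine Finset.sum_le_sum fun p hp => ?_
    rw [Nat.mem_divisorsAntidiagonal] at hp
    exact card_F hc hp.1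

/-- the double sum of greatest common divisors -/
theorem sum_gcd (C : ℕ) :
    ∑ c ∈ Finset.Icc 1 C, ∑ p ∈ c.divisorsAntidiagonal, Nat.gcd p.1 p.2 ≤
      ∑ g ∈ Finset.Icc 1 C, ∑ a ∈ Finset.Icc 1 C, (C / (g * g * a)) * g := by
  have h1 : ∑ g ∈ Finset.Icc 1 C, ∑ a ∈ Finset.Icc 1 C, (C / (g * g * a)) * g =
      ∑ x ∈ (Finset.Icc 1 C).sigma (fun g => (Finset.Icc 1 C).sigma
        (fun a => Finset.Icc 1 (C / (g * g * a)))), x.1 := by
    rw [Finset.sum_sigma]
    refine Finset.sum_congr rfl fun g _ => ?_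
    rw [Finset.sum_sigma]
    refine Finset.sum_congr rfl fun a _ => ?_
    simp
  rw [h1, Finset.sum_sigma']
  let φ : (Σ _ : ℕ, ℕ × ℕ) → (Σ _ : ℕ, Σ _ : ℕ, ℕ) := fun x =>
    ⟨Nat.gcd x.2.1 x.2.2, x.2.1 / Nat.gcd x.2.1 x.2.2, x.2.2 / Nat.gcd x.2.1 x.2.2⟩
  have hinj : Set.InjOn φ
      ((Finset.Icc 1 C).sigma (fun c => c.divisorsAntidiagonal) : Set (Σ _ : ℕ, ℕ × ℕ)) := by
    rintro ⟨c, r, s⟩ hx ⟨c', r', s'⟩ hx' hφ
    simp only [Finset.coe_sigma, Set.mem_sigma_iff, Finset.mem_coe, Finset.mem_Icc,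
      Nat.mem_divisorsAntidiagonal] at hx hx'
    simp only [φ, Sigma.mk.injEq, heq_eq_eq] at hφ
    obtain ⟨h2, h3, h4⟩ := hφ
    have h5 := Nat.div_mul_cancel (Nat.gcd_dvd_left r s)
    have h6 := Nat.div_mul_cancel (Nat.gcd_dvd_left r' s')
    have h7 := Nat.div_mul_cancel (Nat.gcd_dvd_right r s)
    have h8 := Nat.div_mul_cancel (Nat.gcd_dvd_right r' s')
    rw [h3, h2, h6] at h5
    rw [h4, h2, h8] at h7
    subst h5
    subst h7
    obtain ⟨_, h9, _⟩ := hx
    obtain ⟨_, h10, _⟩ := hx'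
    have : c = c' := by rw [← h9, ← h10]
    subst this
    rfl
  have hsub : ((Finset.Icc 1 C).sigma (fun c => c.divisorsAntidiagonal)).image φ ⊆
      (Finset.Icc 1 C).sigma (fun g => (Finset.Icc 1 C).sigma
        (fun a => Finset.Icc 1 (C / (g * g * a)))) := by
    intro y hy
    rw [Finset.mem_image] at hy
    obtain ⟨⟨c, r, s⟩, hx, rfl⟩ := hy
    simp only [Finset.mem_sigma, Finset.mem_Icc, Nat.mem_divisorsAntidiagonal] at hx
    obtain ⟨⟨hc1, hc2⟩, hrs, _⟩ := hx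
    have hr : 0 < r := Nat.pos_of_ne_zero (fun h => by rw [h, Nat.zero_mul] at hrs; omega)
    have hs : 0 < s := Nat.pos_of_ne_zero (fun h => by rw [h, Nat.mul_zero] at hrs; omega)
    have hg : 0 < Nat.gcd r s := Nat.gcd_pos_of_pos_left _ hr
    have h5 := Nat.div_mul_cancel (Nat.gcd_dvd_left r s)
    have h7 := Nat.div_mul_cancel (Nat.gcd_dvd_right r s)
    set g := Nat.gcd r s with hgdef
    set a := r / g with ha
    set b := s / g with hb
    have ha0 : 0 < a := Nat.pos_of_ne_zero (fun h => by rw [h, Nat.zero_mul] at h5; omega)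
    have hb0 : 0 < b := Nat.pos_of_ne_zero (fun h => by rw [h, Nat.zero_mul] at h7; omega)
    have hrC : r ≤ C := (Nat.le_mul_of_pos_right r hs).trans (by rw [hrs]; exact hc2)
    have hgr : g ≤ r := Nat.le_of_dvd hr (Nat.gcd_dvd_left r s)
    have har : a ≤ r := Nat.div_le_self _ _
    simp only [φ, Finset.mem_sigma, Finset.mem_Icc]
    refine ⟨⟨hg, hgr.trans hrC⟩, ⟨ha0, har.trans hrC⟩, hb0, ?_⟩
    change b ≤ C / (g * g * a)
    rw [Nat.le_div_iff_mul_le (by positivity)]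
    calc b * (g * g * a) = (a * g) * (b * g) := by ring
      _ = c := by rw [h5, h7, hrs]
      _ ≤ C := hc2
  calc ∑ x ∈ (Finset.Icc 1 C).sigma (fun c => c.divisorsAntidiagonal), Nat.gcd x.2.1 x.2.2
      = ∑ x ∈ (Finset.Icc 1 C).sigma (fun c => c.divisorsAntidiagonal), (φ x).1 := rfl
    _ = ∑ y ∈ ((Finset.Icc 1 C).sigma (fun c => c.divisorsAntidiagonal)).image φ, y.1 := by
        rw [Finset.sum_image hinj]
    _ ≤ _ := Finset.sum_le_sum_of_subset hsub

theorem harm (C : ℕ) : ∑ g ∈ Finset.Icc 1 C, (1 / (g : ℝ)) ≤ 1 + Real.log C := by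
  have h := harmonic_le_one_add_log C
  have h2 : ((harmonic C : ℚ) : ℝ) = ∑ g ∈ Finset.Icc 1 C, (1 / (g : ℝ)) := by
    rw [harmonic_eq_sum_Icc]
    push_cast
    simp [one_div]
  rw [← h2]
  exact h

theorem sum_real (C : ℕ) :
    ((∑ g ∈ Finset.Icc 1 C, ∑ a ∈ Finset.Icc 1 C, (C / (g * g * a)) * g : ℕ) : ℝ) ≤
      C * (1 + Real.log C) ^ 2 := by
  have h1 : ((∑ g ∈ Finset.Icc 1 C, ∑ a ∈ Finset.Icc 1 C, (C / (g * g * a)) * g : ℕ) : ℝ) ≤
      ∑ g ∈ Finset.Icc 1 C, ∑ a ∈ Finset.Icc 1 C, (C : ℝ) * ((1 / (g : ℝ)) * (1 / (a : ℝ))) := by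
    push_cast
    refine Finset.sum_le_sum fun g hg => Finset.sum_le_sum fun a ha => ?_
    rw [Finset.mem_Icc] at hg ha
    have hg0 : (0 : ℝ) < g := by exact_mod_cast hg.1
    have ha0 : (0 : ℝ) < a := by exact_mod_cast ha.1
    have h2 : ((C / (g * g * a) : ℕ) : ℝ) ≤ (C : ℝ) / ((g * g * a : ℕ) : ℝ) := Nat.cast_div_le
    have h3 : ((C / (g * g * a) : ℕ) : ℝ) * g ≤ (C : ℝ) / ((g * g * a : ℕ) : ℝ) * g :=
      mul_le_mul_of_nonneg_right h2 hg0.le
    refine h3.trans (le_of_eq ?_)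
    push_cast
    field_simp
  have h2 : ∑ g ∈ Finset.Icc 1 C, ∑ a ∈ Finset.Icc 1 C,
      (C : ℝ) * ((1 / (g : ℝ)) * (1 / (a : ℝ))) =
      C * (∑ g ∈ Finset.Icc 1 C, (1 / (g : ℝ))) ^ 2 := by
    rw [pow_two, Finset.sum_mul_sum, Finset.mul_sum]
    refine Finset.sum_congr rfl fun g _ => ?_
    rw [Finset.mul_sum]
  rw [h2] at h1
  refine h1.trans ?_
  have h3 := harm C
  have h4 : 0 ≤ ∑ g ∈ Finset.Icc 1 C, (1 / (g : ℝ)) := Finset.sum_nonneg fun g _ => by positivity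
  gcongr

theorem card_S_le {N : ℕ} (hN : 1 ≤ N) :
    ((S N).card : ℝ) ≤ Real.sqrt (4 * N / 3) * (1 + Real.log (4 * N / 3) / 2) ^ 2 := by
  set C := Nat.sqrt (4 * N / 3) with hC
  have hC2 : 3 * C ^ 2 ≤ 4 * N := by
    have := Nat.sqrt_le' (4 * N / 3)
    rw [← hC] at this
    omega
  have hC1 : 1 ≤ C := by
    rw [hC, Nat.le_sqrt']
    omega
  have hsub : S N ⊆ (Finset.Icc 1 C).biUnion
      (fun c => (B N c).image (fun b => (c, b))) := by
    rintro ⟨c, b⟩ hcb
    unfold S at hcb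
    simp only [Finset.mem_filter, Finset.mem_product, Finset.mem_range] at hcb
    obtain ⟨_, h1, h2, h3, h4⟩ := hcb
    rw [Finset.mem_biUnion]
    refine ⟨c, ?_, ?_⟩
    · rw [Finset.mem_Icc, hC, Nat.le_sqrt']
      omega
    · rw [Finset.mem_image]
      refine ⟨b, ?_, rfl⟩
      simp only [B, Finset.mem_filter, Finset.mem_range]
      exact ⟨h2, h4⟩
  have h5 : (S N).card ≤ ∑ c ∈ Finset.Icc 1 C, ∑ p ∈ c.divisorsAntidiagonal, Nat.gcd p.1 p.2 := by
    refine (Finset.card_le_card hsub).trans (Finset.card_biUnion_le.trans ?_)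
    refine Finset.sum_le_sum fun c hc => ?_
    rw [Finset.mem_Icc] at hc
    exact Finset.card_image_le.trans (card_B hc.1)
  have h6 : ((S N).card : ℝ) ≤ C * (1 + Real.log C) ^ 2 := by
    refine le_trans ?_ (sum_real C)
    exact_mod_cast h5.trans (sum_gcd C)
  have hCpos : (0 : ℝ) < C := by exact_mod_cast hC1
  have h7 : (C : ℝ) ^ 2 ≤ 4 * N / 3 := by
    have : (3 * C ^ 2 : ℝ) ≤ 4 * N := by exact_mod_cast hC2
    linarith
  have h8 : (C : ℝ) ≤ Real.sqrt (4 * N / 3) := Real.le_sqrt_of_sq_le h7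
  have h9 : Real.log C ≤ Real.log (4 * N / 3) / 2 := by
    have : Real.log ((C : ℝ) ^ 2) ≤ Real.log (4 * N / 3) := Real.log_le_log (by positivity) h7
    rw [Real.log_pow] at this
    push_cast at this
    linarith
  have h10 : 0 ≤ Real.log C := Real.log_nonneg (by exact_mod_cast hC1)
  refine h6.trans ?_
  gcongr

end Pool.Agent.Lib_MP_6050fa
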