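import Mathlib

/-!
MP_6050fa_nt.  Size estimates, and the case `m > q`.
-/

namespace Pool.Agent.Lib_MP_6050fa

theorem cube_lt {s : ℕ} (hs : 4 ≤ s) : s ^ 3 + s < 2 ^ (2 * s) := by
  induction s, hs using Nat.le_induction with
  | base => norm_num
  | succ s hs ih =>
    have h1 : 2 ^ (2 * (s + 1)) = 4 * 2 ^ (2 * s) := by
      rw [mul_add, pow_add]
      norm_num
      ring
    rw [h1]
    nlinarith [mul_self_nonneg s, Nat.mul_le_mul hs hs]

theorem exp_ge {s q : ℕ} (hs : 3 ≤ s) (hq : 3 ≤ q) : (s - 1) * (q + 1) + 1 ≤ s ^ (q - 1) := by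
  obtain ⟨t, rfl⟩ : ∃ t, s = t + 3 := ⟨s - 3, by omega⟩
  induction q, hq using Nat.le_induction with
  | base =>
    simp only [Nat.reduceAdd, Nat.reduceSub, show t + 3 - 1 = t + 2 by omega]
    nlinarith
  | succ q hq ih =>
    simp only [show t + 3 - 1 = t + 2 by omega] at ih ⊢
    have h1 : (t + 3) ^ (q + 1 - 1) = (t + 3) * (t + 3) ^ (q - 1) := by
      rw [← pow_succ']
      congr 1
      omega
    rw [h1]
    have h2 : (t + 3) * ((t + 2) * (q + 1) + 1) ≤ (t + 3) * (t + 3) ^ (q - 1) :=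
      Nat.mul_le_mul_left _ ih
    nlinarith [Nat.zero_le (t * q), Nat.zero_le t, Nat.zero_le (t * t * q)]

theorem k_ge {q s k : ℕ} (hq : 0 < q) (hqs : q ≤ s) (hk : k * q = s ^ q) : s ^ (q - 1) ≤ k := by
  have h1 : s ^ (q - 1) * q ≤ k * q := by
    rw [hk]
    calc s ^ (q - 1) * q ≤ s ^ (q - 1) * s := Nat.mul_le_mul_left _ hqs
      _ = s ^ q := by rw [← pow_succ]; congr 1; omega
  exact Nat.le_of_mul_le_mul_right h1 hq

/-- the size of `2 ^ (n / q)` for `n = s ^ q` -/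
theorem size1 {q s k : ℕ} (hq : q.Prime) (hqs : q ∣ s) (hs : 0 < s) (hk : k * q = s ^ q)
    (hne : ¬ (q = 2 ∧ s = 2)) : s ^ (q + 1) + s < 2 ^ k := by
  have hle : q ≤ s := Nat.le_of_dvd hs hqs
  rcases Nat.lt_or_ge q 3 with h3 | h3
  · have hq2 : q = 2 := by have := hq.two_le; omega
    subst hq2
    have hs4 : 4 ≤ s := by
      obtain ⟨c, hc⟩ := hqs
      by_contra h
      have : s = 2 := by omega
      exact hne ⟨rfl, this⟩
    have hk2 : 2 * s ≤ k := by
      have : 2 * s * 2 ≤ k * 2 := by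
        rw [hk]
        nlinarith
      omega
    calc s ^ (2 + 1) + s < 2 ^ (2 * s) := cube_lt hs4
      _ ≤ 2 ^ k := Nat.pow_le_pow_right (by norm_num) hk2
  · have hs3 : 3 ≤ s := h3.trans hle
    have h1 := exp_ge hs3 h3
    have h2 := k_ge hq.pos hle hk
    have h4 : s ≤ 2 ^ (s - 1) := by
      have : s - 1 < 2 ^ (s - 1) := Nat.lt_two_pow_self
      omega
    have h5 : s ^ (q + 1) ≤ 2 ^ ((s - 1) * (q + 1)) := by
      rw [pow_mul]
      exact Nat.pow_le_pow_left h4 _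
    have h6 : 2 * 2 ^ ((s - 1) * (q + 1)) ≤ 2 ^ k := by
      rw [← pow_succ']
      exact Nat.pow_le_pow_right (by norm_num) (h1.trans h2)
    have h7 : s < s ^ (q + 1) := by
      calc s = s ^ 1 := (pow_one s).symm
        _ < s ^ (q + 1) := Nat.pow_lt_pow_right (by omega) (by omega)
    omega

theorem size3 {q s k : ℕ} (hq5 : 5 ≤ q) (hqs : q ≤ s) (hk : k * q = s ^ q) :
    6 ^ q * s ^ (4 * q) + s < 2 ^ k := by
  have h2 := k_ge (by omega) hqs hk
  have h4 : s ≤ 2 ^ (s - 1) := by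
    have : s - 1 < 2 ^ (s - 1) := Nat.lt_two_pow_self
    omega
  have h5 : s ^ (4 * q) ≤ 2 ^ ((s - 1) * (4 * q)) := by
    rw [pow_mul 2]
    exact Nat.pow_le_pow_left h4 _
  have h6 : 6 ^ q ≤ 2 ^ (3 * q) := by
    rw [pow_mul]
    exact Nat.pow_le_pow_left (by norm_num) _
  have h7 : 3 * q + (s - 1) * (4 * q) + 1 ≤ s ^ (q - 1) := by
    have h8 : s ^ 4 ≤ s ^ (q - 1) := Nat.pow_le_pow_right (by omega) (by omega)
    refine le_trans ?_ h8
    obtain ⟨t, rfl⟩ : ∃ t, s = t + 5 := ⟨s - 5, by omega⟩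
    simp only [show t + 5 - 1 = t + 4 by omega]
    have h9 : 3 * q + (t + 4) * (4 * q) + 1 ≤ 3 * (t + 5) + (t + 4) * (4 * (t + 5)) + 1 := by
      have := Nat.mul_le_mul_left (t + 4) (Nat.mul_le_mul_left 4 hqs)
      omega
    refine h9.trans ?_
    nlinarith [Nat.zero_le t, Nat.zero_le (t * t), Nat.zero_le (t ^ 3), Nat.zero_le (t ^ 4)]
  have h8 : 2 * (2 ^ (3 * q) * 2 ^ ((s - 1) * (4 * q))) ≤ 2 ^ k := by
    rw [← pow_add, ← pow_succ']
    exact Nat.pow_le_pow_right (by norm_num) (h7.trans h2)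
  have h9 : 6 ^ q * s ^ (4 * q) ≤ 2 ^ (3 * q) * 2 ^ ((s - 1) * (4 * q)) := Nat.mul_le_mul h6 h5
  have h10 : s < 6 ^ q * s ^ (4 * q) := by
    have h11 : s ^ 1 < s ^ (4 * q) := Nat.pow_lt_pow_right (by omega) (by omega)
    have h12 : 0 < 6 ^ q := by positivity
    nlinarith
  omega

theorem large_gap {m q s u : ℕ} (hmq : q < m) (hu : s ^ (q + 1) < u ^ m) : s + 1 ≤ u ^ (m - q) := by
  by_contra h
  push Not at h
  have h1 : u ^ (m - q) ≤ s := by omega
  rcases Nat.eq_zero_or_pos u with h0 | h0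
  · subst h0
    rw [zero_pow (by omega)] at hu
    omega
  have h2 : u ≤ u ^ (m - q) := by
    calc u = u ^ 1 := (pow_one u).symm
      _ ≤ u ^ (m - q) := Nat.pow_le_pow_right h0 (by omega)
  have h3 : u ^ m = u ^ (m - q) * u ^ q := by
    rw [← pow_add]
    congr 1
    omega
  have h4 : u ^ m ≤ s ^ (q + 1) := by
    rw [h3, pow_succ' s q]
    exact Nat.mul_le_mul h1 (Nat.pow_le_pow_left (h2.trans h1) q)
  omega

theorem add_pow_upper (U s : ℝ) (hU : 0 ≤ U) (hs : 0 ≤ s) (q : ℕ) :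
    (U + s) ^ (q + 1) ≤ U ^ (q + 1) + (q + 1) * s * (U + s) ^ q := by
  induction q with
  | zero => simp
  | succ q ih =>
    have h1 : (U + s) ^ (q + 1 + 1) = (U + s) * (U + s) ^ (q + 1) := by rw [pow_succ']
    have h2 : (U + s) * (U + s) ^ (q + 1) = U * (U + s) ^ (q + 1) + s * (U + s) ^ (q + 1) := by ring
    rw [h1, h2]
    have h3 : U * (U + s) ^ (q + 1) ≤ U * (U ^ (q + 1) + (q + 1) * s * (U + s) ^ q) :=
      mul_le_mul_of_nonneg_left ih hU
    have h4 : U * ((q + 1) * s * (U + s) ^ q) ≤ (q + 1) * s * (U + s) ^ (q + 1) := by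
      rw [pow_succ']
      have h5 : 0 ≤ (q + 1) * s * (U + s) ^ q * s := by positivity
      nlinarith
    push_cast
    have h6 : U * U ^ (q + 1) = U ^ (q + 1 + 1) := by rw [pow_succ' U (q + 1)]
    nlinarith

/-- the case `σ = s`, `m > q` -/
theorem caseA_pos {m q s u y : ℕ} (hq : 2 ≤ q) (hqs : q ≤ s) (hmq : q < m)
    (hU : s ^ (q + 1) < u ^ m) (h : y ^ m + s ^ q = (u ^ m + s) ^ q) : False := by
  have hgap := large_gap hmq hU
  set U := u ^ m with hUdef
  have hu : 0 < u := Nat.pos_of_ne_zero (by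
    rintro rfl
    rw [hUdef, zero_pow (by omega)] at hU
    omega)
  have hs : 0 < s := by omega
  obtain ⟨p, rfl⟩ : ∃ p, q = p + 1 := ⟨q - 1, by omega⟩
  have hUpos : 0 < U := by omega
  have hUq : U ^ (p + 1) = (u ^ (p + 1)) ^ m := by rw [hUdef, ← pow_mul, ← pow_mul, mul_comm]
  have hylt : u ^ (p + 1) < y := by
    refine lt_of_pow_lt_pow_left₀ m (Nat.zero_le y) ?_
    rw [← hUq]
    have h1 : U ^ (p + 1) + s ^ (p + 1) < (U + s) ^ (p + 1) := by
      obtain ⟨r, rfl⟩ : ∃ r, p = r + 1 := ⟨p - 1, by omega⟩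
      have h2 : U ^ (r + 1) ≤ (U + s) ^ (r + 1) := Nat.pow_le_pow_left (by omega) _
      have h3 : s ^ (r + 1) < (U + s) ^ (r + 1) := Nat.pow_lt_pow_left (by omega) (by omega)
      rw [pow_succ U, pow_succ s, pow_succ (U + s)]
      nlinarith
    omega
  have hlow : (u ^ (p + 1)) ^ m + m * (u ^ (p + 1)) ^ (m - 1) ≤ y ^ m := by
    have h1 : (u ^ (p + 1) + 1) ^ m ≤ y ^ m := Nat.pow_le_pow_left hylt m
    refine le_trans ?_ h1
    have hw : (0 : ℝ) < (u : ℝ) ^ (p + 1) := by positivity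
    have h2 := one_add_mul_le_pow (a := 1 / (u : ℝ) ^ (p + 1))
      (by have : 0 < 1 / (u : ℝ) ^ (p + 1) := by positivity
          linarith) m
    have h3 : (((u ^ (p + 1) + 1) ^ m : ℕ) : ℝ) =
        ((u : ℝ) ^ (p + 1)) ^ m * (1 + 1 / (u : ℝ) ^ (p + 1)) ^ m := by
      rw [← mul_pow]
      push_cast
      congr 1
      field_simp
    have h4 : ((u : ℝ) ^ (p + 1)) ^ m = ((u : ℝ) ^ (p + 1)) ^ (m - 1) * (u : ℝ) ^ (p + 1) := by
      rw [← pow_succ]
      congr 1
      omega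
    have h5 : (((u ^ (p + 1)) ^ m + m * (u ^ (p + 1)) ^ (m - 1) : ℕ) : ℝ) =
        ((u : ℝ) ^ (p + 1)) ^ m * (1 + m * (1 / (u : ℝ) ^ (p + 1))) := by
      push_cast
      rw [h4]
      field_simp
    have h6 : (((u ^ (p + 1)) ^ m + m * (u ^ (p + 1)) ^ (m - 1) : ℕ) : ℝ) ≤
        (((u ^ (p + 1) + 1) ^ m : ℕ) : ℝ) := by
      rw [h5, h3]
      exact mul_le_mul_of_nonneg_left h2 (by positivity)
    exact_mod_cast h6
  -- real inequalities
  have hUR : (0 : ℝ) < U := by exact_mod_cast hUpos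
  have hsR : (0 : ℝ) < s := by exact_mod_cast hs
  have hup := add_pow_upper (U : ℝ) s hUR.le hsR.le p
  have hmain : (m : ℝ) * ((u : ℝ) ^ (p + 1)) ^ (m - 1) ≤ (p + 1) * s * ((U : ℝ) + s) ^ p := by
    have h1 : ((u ^ (p + 1)) ^ m + m * (u ^ (p + 1)) ^ (m - 1) : ℕ) + s ^ (p + 1) ≤
        (U + s) ^ (p + 1) := by
      rw [← h]
      omega
    have h2 : (((u ^ (p + 1)) ^ m + m * (u ^ (p + 1)) ^ (m - 1) : ℕ) : ℝ) + (s : ℝ) ^ (p + 1) ≤
        ((U : ℝ) + s) ^ (p + 1) := by exact_mod_cast h1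
    rw [← hUq] at h2
    push_cast at h2
    have h3 : (0 : ℝ) ≤ (s : ℝ) ^ (p + 1) := by positivity
    linarith
  have hmul : (m : ℝ) * (U : ℝ) ^ (p + 1) ≤ (p + 1) * s * ((U : ℝ) + s) ^ p * (u : ℝ) ^ (p + 1) := by
    have h1 : (U : ℝ) ^ (p + 1) = ((u : ℝ) ^ (p + 1)) ^ (m - 1) * (u : ℝ) ^ (p + 1) := by
      rw [← pow_succ]
      have : (U : ℝ) ^ (p + 1) = ((u : ℝ) ^ (p + 1)) ^ m := by exact_mod_cast hUq
      rw [this]
      congr 1
      omega
    rw [h1, ← mul_assoc]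
    exact mul_le_mul_of_nonneg_right hmain (by positivity)
  have hgapR : ((s : ℝ) + 1) * (u : ℝ) ^ (p + 1) ≤ U := by
    have h1 : (s + 1) * u ^ (p + 1) ≤ U := by
      have h2 : U = u ^ (m - (p + 1)) * u ^ (p + 1) := by
        rw [hUdef, ← pow_add]
        congr 1
        omega
      rw [h2]
      exact Nat.mul_le_mul_right _ hgap
    exact_mod_cast h1
  have hkey : (m : ℝ) * (s + 1) * (U : ℝ) ^ p ≤ (p + 1) * s * ((U : ℝ) + s) ^ p := by
    have h1 : (m : ℝ) * (s + 1) * (U : ℝ) ^ p * U ≤ (p + 1) * s * ((U : ℝ) + s) ^ p * U := by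
      calc (m : ℝ) * (s + 1) * (U : ℝ) ^ p * U = (s + 1) * (m * (U : ℝ) ^ (p + 1)) := by ring
        _ ≤ (s + 1) * ((p + 1) * s * ((U : ℝ) + s) ^ p * (u : ℝ) ^ (p + 1)) :=
            mul_le_mul_of_nonneg_left hmul (by linarith)
        _ = (p + 1) * s * ((U : ℝ) + s) ^ p * ((s + 1) * (u : ℝ) ^ (p + 1)) := by ring
        _ ≤ (p + 1) * s * ((U : ℝ) + s) ^ p * U := mul_le_mul_of_nonneg_left hgapR (by positivity)
    exact le_of_mul_le_mul_right h1 hUR
  -- Bernoulli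
  have hbern : ((U : ℝ) + s) ^ p * (1 - p * (s / (U + s))) ≤ (U : ℝ) ^ p := by
    have hpos : (0 : ℝ) < U + s := by linarith
    have h1 : (-2 : ℝ) ≤ -(s / (U + s)) := by
      have : (s : ℝ) / (U + s) ≤ 1 := (div_le_one hpos).2 (by linarith)
      linarith
    have h2 := one_add_mul_le_pow h1 p
    have h3 : (U : ℝ) ^ p = ((U : ℝ) + s) ^ p * (1 + -(s / (U + s))) ^ p := by
      rw [← mul_pow]
      congr 1
      field_simp
      ring
    rw [h3]
    refine mul_le_mul_of_nonneg_left ?_ (by positivity)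
    linarith
  have hmR : (p : ℝ) + 2 ≤ m := by
    have : p + 2 ≤ m := by omega
    exact_mod_cast this
  have hfin : ((p : ℝ) + 2) * (s + 1) * (1 - p * (s / (U + s))) ≤ (p + 1) * s := by
    have hpos : (0 : ℝ) < ((U : ℝ) + s) ^ p := by positivity
    have h1 : ((p : ℝ) + 2) * (s + 1) * (1 - p * (s / (U + s))) * ((U : ℝ) + s) ^ p ≤
        (p + 1) * s * ((U : ℝ) + s) ^ p := by
      calc ((p : ℝ) + 2) * (s + 1) * (1 - p * (s / (U + s))) * ((U : ℝ) + s) ^ p
          = ((p : ℝ) + 2) * (s + 1) * (((U : ℝ) + s) ^ p * (1 - p * (s / (U + s)))) := by ring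
        _ ≤ ((p : ℝ) + 2) * (s + 1) * (U : ℝ) ^ p := mul_le_mul_of_nonneg_left hbern (by positivity)
        _ ≤ m * (s + 1) * (U : ℝ) ^ p := by
            have : (0 : ℝ) ≤ (s + 1) * (U : ℝ) ^ p := by positivity
            nlinarith
        _ ≤ _ := hkey
    exact le_of_mul_le_mul_right h1 hpos
  -- final contradiction
  have hpos : (0 : ℝ) < U + s := by linarith
  have h1 : ((p : ℝ) + s + 2) * (U + s) ≤ (p + 2) * (s + 1) * (p * s) := by
    have h2 : ((p : ℝ) + 2) * (s + 1) * (1 - p * (s / (U + s))) * (U + s) ≤ (p + 1) * s * (U + s) :=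
      mul_le_mul_of_nonneg_right hfin hpos.le
    have h3 : ((p : ℝ) + 2) * (s + 1) * (1 - p * (s / (U + s))) * (U + s) =
        (p + 2) * (s + 1) * (U + s) - (p + 2) * (s + 1) * (p * s) := by
      field_simp
    rw [h3] at h2
    nlinarith
  have h2 : (p + s + 2) * (U + s) ≤ (p + 2) * (s + 1) * (p * s) := by exact_mod_cast h1
  have h3 : s ^ 3 ≤ s ^ (p + 1 + 1) := Nat.pow_le_pow_right hs (by omega)
  rcases Nat.lt_or_ge p 2 with hp | hp
  · have hp1 : p = 1 := by omega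
    subst hp1
    have hs2 : 2 ≤ s := by omega
    have h4 : s ^ 3 < U := by omega
    nlinarith [Nat.mul_le_mul hs2 hs2, Nat.mul_le_mul (Nat.mul_le_mul hs2 hs2) hs2]
  · have h4 : s ^ 4 ≤ s ^ (p + 1 + 1) := Nat.pow_le_pow_right hs (by omega)
    have h5 : s ^ 4 < U := by omega
    have h6 : (p + 2) * (s + 1) * (p * s) ≤ (p + s + 2) * s ^ 3 * 2 := by
      have hps : p ≤ s := by omega
      calc (p + 2) * (s + 1) * (p * s) ≤ (p + s + 2) * (s + s) * (s * s) := by
            gcongr <;> omega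
        _ = (p + s + 2) * s ^ 3 * 2 := by ring
    have h7 : s ^ 3 * 2 ≤ s ^ 4 := by
      rw [pow_succ s 3]
      exact Nat.mul_le_mul_left _ (by omega)
    have h8 : (p + s + 2) * s ^ 3 * 2 ≤ (p + s + 2) * s ^ 4 := by
      rw [mul_assoc]
      exact Nat.mul_le_mul_left _ h7
    have h9 : (p + s + 2) * s ^ 4 < (p + s + 2) * (U + s) := by
      apply Nat.mul_lt_mul_of_pos_left
      · omega
      · omega
    omega

/-- the case `σ = -s`, `m > q` -/
theorem caseA_neg {m q s u y : ℕ} (hq : 3 ≤ q) (hqs : q ≤ s) (hmq : q < m)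
    (hU : s ^ (q + 1) < u ^ m) (hsU : s ≤ u ^ m)
    (h : y ^ m = (u ^ m - s) ^ q + s ^ q) : False := by
  have hgap := large_gap hmq hU
  set U := u ^ m with hUdef
  have hu : 0 < u := Nat.pos_of_ne_zero (by
    rintro rfl
    rw [hUdef, zero_pow (by omega)] at hU
    omega)
  have hs : 0 < s := by omega
  have hUpos : 0 < U := by omega
  have hUq : U ^ q = (u ^ q) ^ m := by rw [hUdef, ← pow_mul, ← pow_mul, mul_comm]
  have hs4 : s ^ 4 < U := by
    have : s ^ 4 ≤ s ^ (q + 1) := Nat.pow_le_pow_right hs (by omega)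
    omega
  have hss : s < U := by
    have : s ^ 1 ≤ s ^ 4 := Nat.pow_le_pow_right hs (by omega)
    rw [pow_one] at this
    omega
  obtain ⟨V, hV⟩ : ∃ V, U = V + s := ⟨U - s, by omega⟩
  have hV0 : 0 < V := by omega
  have hUs : U - s = V := by omega
  rw [hUs] at h
  have hylt : y < u ^ q := by
    refine lt_of_pow_lt_pow_left₀ m (Nat.zero_le _) ?_
    rw [← hUq, h, hV]
    obtain ⟨r, rfl⟩ : ∃ r, q = r + 2 := ⟨q - 2, by omega⟩
    have h2 : V ^ (r + 1) ≤ (V + s) ^ (r + 1) := Nat.pow_le_pow_left (by omega) _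
    have h3 : s ^ (r + 1) < (V + s) ^ (r + 1) := Nat.pow_lt_pow_left (by omega) (by omega)
    rw [pow_succ V, pow_succ s, pow_succ (V + s)]
    nlinarith
  set w := u ^ q with hw
  have hw2 : 2 ≤ w := by
    have h1 : 1 ≤ y := by
      by_contra h0
      have : y = 0 := by omega
      subst this
      rw [zero_pow (by omega)] at h
      have : 0 < V ^ q := by positivity
      omega
    omega
  have hwR : (2 : ℝ) ≤ w := by exact_mod_cast hw2
  have hURpos : (0 : ℝ) < U := by exact_mod_cast hUpos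
  have hsR : (0 : ℝ) < s := by exact_mod_cast hs
  have hVR : (V : ℝ) = U - s := by
    rw [hV]
    push_cast
    ring
  -- lower bound for `y ^ m`
  have h1 : (U : ℝ) ^ q * (1 - q * (s / U)) ≤ (y : ℝ) ^ m := by
    have h2 : (-2 : ℝ) ≤ -((s : ℝ) / U) := by
      have : (s : ℝ) / U ≤ 1 := (div_le_one hURpos).2 (by exact_mod_cast hss.le)
      linarith
    have h3 := one_add_mul_le_pow h2 q
    have h4 : (V : ℝ) ^ q = (U : ℝ) ^ q * (1 + -((s : ℝ) / U)) ^ q := by
      rw [← mul_pow, hVR]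
      congr 1
      field_simp
      ring
    have h5 : (V : ℝ) ^ q ≤ (y : ℝ) ^ m := by
      have : V ^ q ≤ y ^ m := by omega
      exact_mod_cast this
    refine le_trans ?_ h5
    rw [h4]
    refine mul_le_mul_of_nonneg_left ?_ (by positivity)
    linarith
  -- upper bound for `y ^ m`
  have h2 : (y : ℝ) ^ m * (w + m) ≤ (w : ℝ) ^ m * w := by
    have h3 : (y : ℝ) ≤ w - 1 := by
      have : y + 1 ≤ w := hylt
      have h4 : ((y + 1 : ℕ) : ℝ) ≤ w := by exact_mod_cast this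
      push_cast at h4
      linarith
    have h4 : (y : ℝ) ^ m ≤ ((w : ℝ) - 1) ^ m := pow_le_pow_left₀ (by positivity) h3 m
    have h5 : (0 : ℝ) < w - 1 := by linarith
    have h6 := one_add_mul_le_pow (a := 1 / ((w : ℝ) - 1))
      (by have : 0 < 1 / ((w : ℝ) - 1) := by positivity
          linarith) m
    have h7 : (w : ℝ) ^ m = ((w : ℝ) - 1) ^ m * (1 + 1 / ((w : ℝ) - 1)) ^ m := by
      rw [← mul_pow]
      congr 1
      field_simp
      ring
    have h8 : ((w : ℝ) + m) ≤ w * (1 + m * (1 / ((w : ℝ) - 1))) := by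
      have h9 : (m : ℝ) ≤ w * (m * (1 / ((w : ℝ) - 1))) := by
        have h10 : (w : ℝ) * (m * (1 / ((w : ℝ) - 1))) = m * (w / (w - 1)) := by ring
        rw [h10]
        have h11 : (1 : ℝ) ≤ w / (w - 1) := by
          rw [le_div_iff₀ h5]
          linarith
        have h12 : (0 : ℝ) ≤ m := Nat.cast_nonneg m
        nlinarith
      linarith
    calc (y : ℝ) ^ m * (w + m) ≤ ((w : ℝ) - 1) ^ m * (w + m) :=
          mul_le_mul_of_nonneg_right h4 (by positivity)
      _ ≤ ((w : ℝ) - 1) ^ m * (w * (1 + m * (1 / ((w : ℝ) - 1)))) :=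
          mul_le_mul_of_nonneg_left h8 (by positivity)
      _ ≤ ((w : ℝ) - 1) ^ m * (w * (1 + 1 / ((w : ℝ) - 1)) ^ m) := by
          refine mul_le_mul_of_nonneg_left ?_ (by positivity)
          exact mul_le_mul_of_nonneg_left h6 (by positivity)
      _ = (w : ℝ) ^ m * w := by rw [h7]; ring
  have hUqR : (U : ℝ) ^ q = (w : ℝ) ^ m := by exact_mod_cast hUq
  have h3 : ((U : ℝ) - q * s) * (w + m) ≤ w * U := by
    have h4 : (U : ℝ) ^ q * (1 - q * (s / U)) * (w + m) ≤ (U : ℝ) ^ q * w := by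
      calc (U : ℝ) ^ q * (1 - q * (s / U)) * (w + m) ≤ (y : ℝ) ^ m * (w + m) :=
            mul_le_mul_of_nonneg_right h1 (by positivity)
        _ ≤ (w : ℝ) ^ m * w := h2
        _ = (U : ℝ) ^ q * w := by rw [hUqR]
    have h5 : (1 - q * ((s : ℝ) / U)) * (w + m) ≤ w := by
      have h6 : (0 : ℝ) < (U : ℝ) ^ q := by positivity
      have h7 : (U : ℝ) ^ q * ((1 - q * ((s : ℝ) / U)) * (w + m)) ≤ (U : ℝ) ^ q * w := by
        rw [← mul_assoc]
        exact h4
      exact le_of_mul_le_mul_left h7 h6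
    have h6 : (1 - q * ((s : ℝ) / U)) * (w + m) * U ≤ w * U :=
      mul_le_mul_of_nonneg_right h5 hURpos.le
    have h7 : (1 - q * ((s : ℝ) / U)) * (w + m) * U = ((U : ℝ) - q * s) * (w + m) := by
      field_simp
    rw [h7] at h6
    exact h6
  have h4 : (m : ℝ) * U ≤ q * s * (w + m) := by nlinarith
  have hgapR : ((s : ℝ) + 1) * w ≤ U := by
    have h5 : (s + 1) * w ≤ U := by
      have h6 : U = u ^ (m - q) * u ^ q := by
        rw [hUdef, ← pow_add]
        congr 1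
        omega
      rw [h6]
      exact Nat.mul_le_mul_right _ hgap
    exact_mod_cast h5
  have hmq' : (q : ℝ) ≤ m := by exact_mod_cast hmq.le
  have hq0 : (0 : ℝ) < q := by
    have : 0 < q := by omega
    exact_mod_cast this
  have hm0 : (0 : ℝ) < m := by linarith
  have h5 : (m : ℝ) * U ≤ m * (q * s * (s + 1)) := by
    have h6 : (m : ℝ) * U * (s + 1) ≤ q * s * (U + m * (s + 1)) := by
      have h7 : (m : ℝ) * U * (s + 1) ≤ q * s * (w + m) * (s + 1) :=
        mul_le_mul_of_nonneg_right h4 (by linarith)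
      have h8 : q * s * ((w : ℝ) + m) * (s + 1) = q * s * ((s + 1) * w + m * (s + 1)) := by ring
      rw [h8] at h7
      refine h7.trans ?_
      refine mul_le_mul_of_nonneg_left ?_ (by positivity)
      linarith
    have h7 : (q : ℝ) * s * U ≤ m * s * U := by
      have : (0 : ℝ) ≤ s * U := by positivity
      nlinarith
    nlinarith
  have h6 : (U : ℝ) ≤ q * s * (s + 1) := le_of_mul_le_mul_left h5 hm0
  have h7 : U ≤ q * s * (s + 1) := by exact_mod_cast h6
  have h8 : q * s * (s + 1) ≤ s ^ 4 := by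
    calc q * s * (s + 1) ≤ s * s * (s + s) := by gcongr; omega
      _ = s ^ 3 * 2 := by ring
      _ ≤ s ^ 3 * s := Nat.mul_le_mul_left _ (by omega)
      _ = s ^ 4 := by ring
  omega

end Pool.Agent.Lib_MP_6050fa
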