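import Mathlib

/-!
MP_6050fa_nt.  Ideals `(A, B + √(-n))` of `ℤ[√(-n)]`.  (The lemmas `nzd` ... `unit_eq` are taken from
the hand-in `EvenExponent`.)
-/

namespace Pool.Agent.Lib_MP_6050fa

open Zsqrtd

/-- the ideal `(A, B + √(-n))` of `ℤ[√(-n)]` -/
def J (n : ℕ) (A B : ℤ) : Ideal (ℤ√(-(n : ℤ))) := Ideal.span {(A : ℤ√(-(n : ℤ))), ⟨B, 1⟩}

section ring

variable {n : ℕ}

theorem nzd (hn : 0 < n) : NoZeroDivisors (ℤ√(-(n : ℤ))) := by
  have hd : (-(n : ℤ)) < 0 := by omega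
  refine ⟨fun {a b} hab => ?_⟩
  have h : (a * b).norm = 0 := by rw [hab]; exact norm_zero
  rw [norm_mul] at h
  rcases mul_eq_zero.1 h with h | h
  · exact Or.inl ((norm_eq_zero_iff hd a).1 h)
  · exact Or.inr ((norm_eq_zero_iff hd b).1 h)

theorem dom (hn : 0 < n) : IsDomain (ℤ√(-(n : ℤ))) :=
  haveI := nzd hn
  NoZeroDivisors.to_isDomain _

theorem J_shift (A B k : ℤ) : J n A (B + k * A) = J n A B := by
  unfold J
  apply _root_.le_antisymm
  · rw [Ideal.span_le]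
    rintro w hw
    rcases hw with rfl | rfl
    · exact Ideal.subset_span (Set.mem_insert _ _)
    · have h1 : (A : ℤ√(-(n : ℤ))) ∈ Ideal.span {(A : ℤ√(-(n : ℤ))), ⟨B, 1⟩} :=
        Ideal.subset_span (Set.mem_insert _ _)
      have h2 : (⟨B, 1⟩ : ℤ√(-(n : ℤ))) ∈ Ideal.span {(A : ℤ√(-(n : ℤ))), ⟨B, 1⟩} :=
        Ideal.subset_span (Set.mem_insert_of_mem _ rfl)
      have h3 : (⟨B + k * A, 1⟩ : ℤ√(-(n : ℤ))) = ⟨B, 1⟩ + (k : ℤ√(-(n : ℤ))) * A := by
        ext <;> simp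
      rw [SetLike.mem_coe, h3]
      exact Ideal.add_mem _ h2 (Ideal.mul_mem_left _ _ h1)
  · rw [Ideal.span_le]
    rintro w hw
    rcases hw with rfl | rfl
    · exact Ideal.subset_span (Set.mem_insert _ _)
    · have h1 : (A : ℤ√(-(n : ℤ))) ∈ Ideal.span {(A : ℤ√(-(n : ℤ))), ⟨B + k * A, 1⟩} :=
        Ideal.subset_span (Set.mem_insert _ _)
      have h2 : (⟨B + k * A, 1⟩ : ℤ√(-(n : ℤ))) ∈
          Ideal.span {(A : ℤ√(-(n : ℤ))), ⟨B + k * A, 1⟩} :=
        Ideal.subset_span (Set.mem_insert_of_mem _ rfl)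
      have h3 : (⟨B, 1⟩ : ℤ√(-(n : ℤ))) = ⟨B + k * A, 1⟩ - (k : ℤ√(-(n : ℤ))) * A := by
        ext <;> simp
      rw [SetLike.mem_coe, h3]
      exact Ideal.sub_mem _ h2 (Ideal.mul_mem_left _ _ h1)

theorem span_mul_pair (w a b : ℤ√(-(n : ℤ))) :
    Ideal.span {w} * Ideal.span {a, b} = Ideal.span {w * a, w * b} := by
  rw [Ideal.span_mul_span']
  congr 1
  rw [Set.singleton_mul, Set.image_pair]

theorem J_swap (A B C : ℤ) (h : A * C = B ^ 2 + n) :
    Ideal.span {(⟨B, -1⟩ : ℤ√(-(n : ℤ)))} * J n A B =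
      Ideal.span {(A : ℤ√(-(n : ℤ)))} * J n C (-B) := by
  unfold J
  rw [span_mul_pair, span_mul_pair]
  have e1 : (⟨B, -1⟩ : ℤ√(-(n : ℤ))) * (A : ℤ√(-(n : ℤ))) =
      -((A : ℤ√(-(n : ℤ))) * ⟨-B, 1⟩) := by
    ext <;> simp [mul_comm]
  have e2 : (⟨B, -1⟩ : ℤ√(-(n : ℤ))) * ⟨B, 1⟩ = (A : ℤ√(-(n : ℤ))) * (C : ℤ√(-(n : ℤ))) := by
    ext
    · simp
      linarith
    · simp
  rw [e1, e2]
  rw [Set.pair_comm]
  apply _root_.le_antisymm
  · rw [Ideal.span_le]
    rintro w hw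
    rcases hw with rfl | rfl
    · exact Ideal.subset_span (Set.mem_insert _ _)
    · rw [SetLike.mem_coe, Ideal.neg_mem_iff]
      exact Ideal.subset_span (Set.mem_insert_of_mem _ rfl)
  · rw [Ideal.span_le]
    rintro w hw
    rcases hw with rfl | rfl
    · exact Ideal.subset_span (Set.mem_insert _ _)
    · rw [SetLike.mem_coe, ← Ideal.neg_mem_iff]
      exact Ideal.subset_span (Set.mem_insert_of_mem _ rfl)

/-- reduction: every ideal `(A, B + √(-n))` is equivalent to one with small data -/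
theorem red (hn : 0 < n) : ∀ (A : ℕ), 0 < A → ∀ B : ℤ, (A : ℤ) ∣ B ^ 2 + n →
    ∃ c b : ℕ, 0 < c ∧ b < c ∧ 3 * c ^ 2 ≤ 4 * n ∧ c ∣ b ^ 2 + n ∧
      ∃ α β : ℤ√(-(n : ℤ)), α ≠ 0 ∧ β ≠ 0 ∧
        Ideal.span {α} * J n A B = Ideal.span {β} * J n c b := by
  intro A
  induction A using Nat.strong_induction_on with
  | _ A ih =>
    intro hA B hAB
    have := nzd hn
    have := dom hn
    -- balanced representative
    obtain ⟨k, hk⟩ : ∃ k : ℤ, 2 * |B + k * A| ≤ A := by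
      have hA' : (0 : ℤ) < A := by exact_mod_cast hA
      refine ⟨-((2 * B + A) / (2 * A)), ?_⟩
      have h1 := Int.emod_add_mul_ediv (2 * B + A) (2 * A)
      have h2 := Int.emod_nonneg (2 * B + A) (by omega : (2 * (A : ℤ)) ≠ 0)
      have h3 := Int.emod_lt_of_pos (2 * B + A) (by omega : (0 : ℤ) < 2 * A)
      set e := (2 * B + (A : ℤ)) / (2 * A) with he
      have h4 : 2 * (B + -e * A) = (2 * B + A) % (2 * A) - A := by linarith
      have h5 : |2 * (B + -e * A)| ≤ A := by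
        rw [h4, abs_le]
        constructor <;> linarith
      rw [abs_mul] at h5
      simpa using h5
    set B' : ℤ := B + k * A with hB'
    have hshift : J n A B = J n A B' := (J_shift (n := n) A B k).symm
    have hdvd : (A : ℤ) ∣ B' ^ 2 + n := by
      have : B' ^ 2 + n = (B ^ 2 + n) + A * (2 * B * k + k ^ 2 * A) := by rw [hB']; ring
      rw [this]
      exact dvd_add hAB (dvd_mul_right _ _)
    obtain ⟨C, hC⟩ := hdvd
    have hA' : (0 : ℤ) < A := by exact_mod_cast hA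
    have hn' : (0 : ℤ) < n := by exact_mod_cast hn
    have hCpos : 0 < C := by
      by_contra hc
      push Not at hc
      nlinarith [sq_nonneg B']
    have hsq : 4 * B' ^ 2 ≤ (A : ℤ) ^ 2 := by
      have h1 : (2 * |B'|) ^ 2 ≤ (A : ℤ) ^ 2 :=
        pow_le_pow_left₀ (by positivity) hk 2
      rw [mul_pow, sq_abs] at h1
      linarith
    by_cases hAC : (A : ℤ) ≤ C
    · -- reduced
      refine ⟨A, (B' % A).toNat, hA, ?_, ?_, ?_, 1, 1, one_ne_zero, one_ne_zero, ?_⟩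
      · have h2 := Int.emod_nonneg B' hA'.ne'
        have h3 := Int.emod_lt_of_pos B' hA'
        omega
      · have : 3 * (A : ℤ) ^ 2 ≤ 4 * n := by nlinarith
        exact_mod_cast this
      · have h2 := Int.emod_nonneg B' hA'.ne'
        have h4 : (((B' % A).toNat : ℕ) : ℤ) = B' % A := Int.toNat_of_nonneg h2
        have h5 : (A : ℤ) ∣ (((B' % A).toNat : ℕ) : ℤ) ^ 2 + n := by
          rw [h4]
          have h6 := Int.emod_add_mul_ediv B' A
          have h7 : (B' % A) ^ 2 + n =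
              (B' ^ 2 + n) + A * (-(2 * B' * (B' / A)) + A * (B' / A) ^ 2) := by
            have : B' % A = B' - A * (B' / A) := by linarith
            rw [this]
            ring
          rw [h7, hC]
          exact dvd_add (dvd_mul_right _ _) (dvd_mul_right _ _)
        exact_mod_cast h5
      · have h2 := Int.emod_nonneg B' hA'.ne'
        have h4 : (((B' % A).toNat : ℕ) : ℤ) = B' % A := Int.toNat_of_nonneg h2
        rw [hshift, h4]
        congr 1
        have h6 := Int.emod_add_mul_ediv B' A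
        have h7 : B' = B' % A + (B' / A) * A := by linarith
        conv_lhs => rw [h7]
        exact J_shift _ _ _
    · push Not at hAC
      obtain ⟨c0, hc0⟩ : ∃ c0 : ℕ, C = c0 := ⟨C.toNat, (Int.toNat_of_nonneg hCpos.le).symm⟩
      subst hc0
      have hc1 : 0 < c0 := by exact_mod_cast hCpos
      have hc2 : c0 < A := by exact_mod_cast hAC
      obtain ⟨c, b, h1, h2, h3, h4, α, β, hα, hβ, h5⟩ := ih c0 hc2 hc1 (-B')
        ⟨A, by rw [neg_sq, hC]; ring⟩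
      refine ⟨c, b, h1, h2, h3, h4, α * ⟨B', -1⟩, β * (A : ℤ√(-(n : ℤ))), ?_, ?_, ?_⟩
      · refine mul_ne_zero hα fun h => ?_
        have := congrArg Zsqrtd.im h
        simp at this
      · refine mul_ne_zero hβ fun h => ?_
        have := congrArg Zsqrtd.re h
        simp at this
        omega
      · rw [hshift, ← Ideal.span_singleton_mul_span_singleton, mul_assoc,
          J_swap (n := n) (A : ℤ) B' c0 (by rw [← hC]), mul_left_comm, h5,
          ← Ideal.span_singleton_mul_span_singleton, ← mul_assoc, mul_comm (Ideal.span {β})]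
        simp

theorem princ (hn : 0 < n) {α ρ : ℤ√(-(n : ℤ))} {K : Ideal (ℤ√(-(n : ℤ)))} (hα : α ≠ 0)
    (h : Ideal.span {α} * K = Ideal.span {ρ}) : ∃ w, K = Ideal.span {w} := by
  have := nzd hn
  have := dom hn
  have h1 : ρ ∈ Ideal.span {α} * K := by rw [h]; exact Ideal.mem_span_singleton_self ρ
  obtain ⟨w, _, hw⟩ := Ideal.mem_span_singleton_mul.1 h1
  refine ⟨w, ?_⟩
  rw [← hw, ← Ideal.span_singleton_mul_span_singleton] at h
  exact (Ideal.span_singleton_mul_right_inj hα).1 h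

/-- the finite set of reduced data -/
def S (n : ℕ) : Finset (ℕ × ℕ) :=
  ((Finset.range (n + 1)) ×ˢ (Finset.range (n + 1))).filter
    (fun p => 0 < p.1 ∧ p.2 < p.1 ∧ 3 * p.1 ^ 2 ≤ 4 * n ∧ p.1 ∣ p.2 ^ 2 + n)

theorem mem_S {c b : ℕ} (h1 : 0 < c) (h2 : b < c) (h3 : 3 * c ^ 2 ≤ 4 * n) (h4 : c ∣ b ^ 2 + n) :
    (c, b) ∈ S n := by
  unfold S
  simp only [Finset.mem_filter, Finset.mem_product, Finset.mem_range]
  refine ⟨⟨?_, ?_⟩, h1, h2, h3, h4⟩
  · by_contra hc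
    push Not at hc
    nlinarith
  · by_contra hc
    push Not at hc
    nlinarith

/-- the coefficient of `√(-n)` in a `q`-th power is divisible by `q` when `q ∣ n` -/
theorem im_pow {q : ℤ} (hq : q ∣ n) (γ : ℤ√(-(n : ℤ))) : ∀ i : ℕ,
    q ∣ (γ ^ i).re - γ.re ^ i ∧ q ∣ (γ ^ (i + 1)).im - (i + 1) * γ.re ^ i * γ.im := by
  intro i
  induction i with
  | zero => simp
  | succ i ih =>
    obtain ⟨⟨a, ha⟩, ⟨b, hb⟩⟩ := ih
    obtain ⟨m, hm⟩ := hq
    have h1 : (γ ^ (i + 1)).re = (γ ^ i).re * γ.re + -(n : ℤ) * (γ ^ i).im * γ.im := by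
      rw [pow_succ, re_mul]
    have h2 : (γ ^ (i + 1 + 1)).im = (γ ^ (i + 1)).re * γ.im + (γ ^ (i + 1)).im * γ.re := by
      rw [pow_succ, im_mul]
    have h3 : q ∣ (γ ^ (i + 1)).re - γ.re ^ (i + 1) := by
      refine ⟨a * γ.re - m * (γ ^ i).im * γ.im, ?_⟩
      have h4 : (γ ^ i).re = q * a + γ.re ^ i := by linarith
      rw [h1, h4]
      have h5 : -(n : ℤ) * (γ ^ i).im * γ.im = -(q * m) * (γ ^ i).im * γ.im := by
        rw [← hm]
      rw [h5]
      ring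
    refine ⟨h3, ?_⟩
    obtain ⟨c, hc⟩ := h3
    refine ⟨c * γ.im + b * γ.re, ?_⟩
    have h4 : (γ ^ (i + 1)).re = q * c + γ.re ^ (i + 1) := by linarith
    have h5 : (γ ^ (i + 1)).im = q * b + (i + 1) * γ.re ^ i * γ.im := by linarith
    rw [h2, h4, h5]
    push_cast
    ring

theorem im_pow_self {q : ℕ} (hq0 : 0 < q) (hq : q ∣ n) (γ : ℤ√(-(n : ℤ))) :
    (q : ℤ) ∣ (γ ^ q).im := by
  obtain ⟨i, rfl⟩ : ∃ i, q = i + 1 := ⟨q - 1, by omega⟩
  have h := (im_pow (n := n) (q := ((i + 1 : ℕ) : ℤ)) (by exact_mod_cast hq) γ i).2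
  have h2 : ((i + 1 : ℕ) : ℤ) ∣ (i + 1) * γ.re ^ i * γ.im := by
    push_cast
    exact Dvd.dvd.mul_right (dvd_mul_right _ _) _
  have := dvd_add h h2
  simpa using this

theorem unit_eq (hn : 2 ≤ n) {u : ℤ√(-(n : ℤ))} (hu : IsUnit u) : u = 1 ∨ u = -1 := by
  have h := (norm_eq_one_iff' (by omega : (-(n : ℤ)) ≤ 0) u).2 hu
  rw [norm_def] at h
  have hn' : (2 : ℤ) ≤ n := by exact_mod_cast hn
  have him : u.im = 0 := by
    by_contra hc
    have h1 : 1 ≤ u.im * u.im := by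
      rcases lt_or_gt_of_ne hc with h2 | h2 <;> nlinarith
    nlinarith [mul_self_nonneg u.re]
  rw [him] at h
  have hre : u.re = 1 ∨ u.re = -1 := by
    have : (u.re - 1) * (u.re + 1) = 0 := by linarith
    rcases mul_eq_zero.1 this with h1 | h1
    · left; omega
    · right; omega
  rcases hre with h1 | h1
  · left; ext <;> simp [h1, him]
  · right; ext <;> simp [h1, him]


theorem J_pow {x : ℕ} {Y : ℤ} {e : ℕ} (h : (x : ℤ) ^ e ∣ Y ^ 2 + n)
    (hc : IsCoprime (x : ℤ) (2 * Y)) :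
    ∀ j : ℕ, j + 1 ≤ e → J n ((x ^ (j + 1) : ℕ) : ℤ) Y = (J n x Y) ^ (j + 1) := by
  obtain ⟨K, hK⟩ := h
  intro j
  induction j with
  | zero => intro _; simp
  | succ j ih =>
    intro hj
    rw [pow_succ (J n x Y), ← ih (by omega)]
    obtain ⟨u, v, huv⟩ := hc
    obtain ⟨e', he⟩ : ∃ e', e = (j + 1 + 1) + e' := ⟨e - (j + 1 + 1), by omega⟩
    unfold J
    rw [Ideal.span_pair_mul_span_pair]
    set z : ℤ√(-(n : ℤ)) := ⟨Y, 1⟩ with hz
    have hzz : z * z = ((2 * Y : ℤ) : ℤ√(-(n : ℤ))) * z -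
        (K : ℤ√(-(n : ℤ))) * ((x : ℤ) : ℤ√(-(n : ℤ))) ^ e := by
      have : (K : ℤ√(-(n : ℤ))) * ((x : ℤ) : ℤ√(-(n : ℤ))) ^ e = ⟨Y ^ 2 + n, 0⟩ := by
        rw [← Int.cast_pow, hK, ← Int.cast_mul, mul_comm, intCast_val]
      rw [this, hz, intCast_val]
      ext
      · simp
        ring
      · simp
        ring
    have hx1 : (((x ^ (j + 1) : ℕ) : ℤ) : ℤ√(-(n : ℤ))) = ((x : ℤ) : ℤ√(-(n : ℤ))) ^ (j + 1) := by
      push_cast; rfl
    have hx2 : (((x ^ (j + 1 + 1) : ℕ) : ℤ) : ℤ√(-(n : ℤ))) =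
        ((x : ℤ) : ℤ√(-(n : ℤ))) ^ (j + 1 + 1) := by
      push_cast; rfl
    rw [hx1, hx2]
    set X : ℤ√(-(n : ℤ)) := ((x : ℤ) : ℤ√(-(n : ℤ))) with hX
    apply _root_.le_antisymm
    · rw [Ideal.span_le]
      have hm1 : X ^ (j + 1) * X ∈ Ideal.span {X ^ (j + 1) * X, X ^ (j + 1) * z, z * X, z * z} :=
        Ideal.subset_span (by simp)
      have hm2 : z * X ∈ Ideal.span {X ^ (j + 1) * X, X ^ (j + 1) * z, z * X, z * z} :=
        Ideal.subset_span (by simp)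
      have hm3 : z * z ∈ Ideal.span {X ^ (j + 1) * X, X ^ (j + 1) * z, z * X, z * z} :=
        Ideal.subset_span (by simp)
      rintro w hw
      rcases hw with rfl | rfl
      · rw [SetLike.mem_coe, pow_succ]
        exact hm1
      · rw [SetLike.mem_coe]
        have h1 : z = (u : ℤ√(-(n : ℤ))) * (z * X) +
            (v : ℤ√(-(n : ℤ))) * (z * z + (K : ℤ√(-(n : ℤ))) * X ^ e' * (X ^ (j + 1) * X)) := by
          rw [hzz]
          have h2 : (K : ℤ√(-(n : ℤ))) * X ^ e' * (X ^ (j + 1) * X) =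
              (K : ℤ√(-(n : ℤ))) * X ^ e := by
            rw [he]
            ring
          rw [h2]
          have h3 : (u : ℤ√(-(n : ℤ))) * X + (v : ℤ√(-(n : ℤ))) * ((2 * Y : ℤ) : ℤ√(-(n : ℤ))) =
              1 := by
            have h4 := congrArg (fun t : ℤ => (t : ℤ√(-(n : ℤ)))) huv
            simp only [Int.cast_add, Int.cast_mul, Int.cast_one] at h4
            rw [hX, Int.cast_mul]
            exact h4
          calc z = 1 * z := (one_mul z).symm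
            _ = _ := by rw [← h3]; ring
        have h5 := Ideal.add_mem _ (Ideal.mul_mem_left _ (u : ℤ√(-(n : ℤ))) hm2)
          (Ideal.mul_mem_left _ (v : ℤ√(-(n : ℤ)))
            (Ideal.add_mem _ hm3 (Ideal.mul_mem_left _ ((K : ℤ√(-(n : ℤ))) * X ^ e') hm1)))
        rwa [← h1] at h5
    · rw [Ideal.span_le]
      have hm1 : X ^ (j + 1 + 1) ∈ Ideal.span {X ^ (j + 1 + 1), z} :=
        Ideal.subset_span (by simp)
      have hm2 : z ∈ Ideal.span {X ^ (j + 1 + 1), z} :=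
        Ideal.subset_span (by simp)
      rintro w hw
      rcases hw with rfl | rfl | rfl | rfl
      · rw [SetLike.mem_coe, ← pow_succ]; exact hm1
      · exact Ideal.mul_mem_left _ _ hm2
      · exact Ideal.mul_mem_right _ _ hm2
      · exact Ideal.mul_mem_left _ _ hm2

/-- the square of `(x ^ e, Y + √(-n))`, where `Y = A B`, `Y ^ 2 + n = A x ^ e`, is principal -/
theorem J_sq {X A B : ℤ} (h : A * X = (A * B) ^ 2 + n) (hc : IsCoprime A X) :
    (J n X (A * B)) ^ 2 = Ideal.span {(⟨2 * B * (A * B) - X, 2 * B⟩ : ℤ√(-(n : ℤ)))} := by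
  rw [pow_two]
  unfold J
  rw [Ideal.span_pair_mul_span_pair]
  set z : ℤ√(-(n : ℤ)) := ⟨A * B, 1⟩ with hz
  set ζ : ℤ√(-(n : ℤ)) := ⟨2 * B * (A * B) - X, 2 * B⟩ with hζ
  have e1 : (X : ℤ√(-(n : ℤ))) * (X : ℤ√(-(n : ℤ))) = ζ * ⟨2 * B * (A * B) - X, -(2 * B)⟩ := by
    rw [hζ, intCast_val]
    ext
    · simp
      linear_combination (4 * B ^ 2) * h
    · simp
      ring
  have e2 : (X : ℤ√(-(n : ℤ))) * z = ζ * ⟨A * B, -1⟩ := by
    rw [hζ, hz, intCast_val]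
    ext
    · simp
      linear_combination (2 * B) * h
    · simp
  have e3 : z * z = (A : ℤ√(-(n : ℤ))) * ζ := by
    rw [hζ, hz, intCast_val]
    ext
    · simp
      linear_combination (1 : ℤ) * h
    · simp
      ring
  have e4 : (X : ℤ√(-(n : ℤ))) * ζ = 2 * (B : ℤ√(-(n : ℤ))) * ((X : ℤ√(-(n : ℤ))) * z) -
      (X : ℤ√(-(n : ℤ))) * (X : ℤ√(-(n : ℤ))) := by
    have : ζ = 2 * (B : ℤ√(-(n : ℤ))) * z - (X : ℤ√(-(n : ℤ))) := by
      rw [hζ, hz, intCast_val, intCast_val]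
      ext
      · simp
      · simp
    rw [this]
    ring
  apply _root_.le_antisymm
  · rw [Ideal.span_le]
    rintro w hw
    rw [SetLike.mem_coe, Ideal.mem_span_singleton]
    rcases hw with rfl | rfl | rfl | rfl
    · rw [e1]; exact dvd_mul_right _ _
    · rw [e2]; exact dvd_mul_right _ _
    · rw [mul_comm, e2]; exact dvd_mul_right _ _
    · rw [e3]; exact dvd_mul_left _ _
  · rw [Ideal.span_le]
    rintro w hw
    rw [Set.mem_singleton_iff] at hw
    subst hw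
    rw [SetLike.mem_coe]
    obtain ⟨u, v, huv⟩ := hc
    have hm1 : (X : ℤ√(-(n : ℤ))) * (X : ℤ√(-(n : ℤ))) ∈
        Ideal.span {(X : ℤ√(-(n : ℤ))) * (X : ℤ√(-(n : ℤ))), (X : ℤ√(-(n : ℤ))) * z,
          z * (X : ℤ√(-(n : ℤ))), z * z} := Ideal.subset_span (by simp)
    have hm2 : (X : ℤ√(-(n : ℤ))) * z ∈
        Ideal.span {(X : ℤ√(-(n : ℤ))) * (X : ℤ√(-(n : ℤ))), (X : ℤ√(-(n : ℤ))) * z,
          z * (X : ℤ√(-(n : ℤ))), z * z} := Ideal.subset_span (by simp)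
    have hm3 : z * z ∈
        Ideal.span {(X : ℤ√(-(n : ℤ))) * (X : ℤ√(-(n : ℤ))), (X : ℤ√(-(n : ℤ))) * z,
          z * (X : ℤ√(-(n : ℤ))), z * z} := Ideal.subset_span (by simp)
    have h1 : ζ = (u : ℤ√(-(n : ℤ))) * (z * z) + (v : ℤ√(-(n : ℤ))) *
        (2 * (B : ℤ√(-(n : ℤ))) * ((X : ℤ√(-(n : ℤ))) * z) -
          (X : ℤ√(-(n : ℤ))) * (X : ℤ√(-(n : ℤ)))) := by
      rw [← e4, e3]
      have h3 : (u : ℤ√(-(n : ℤ))) * (A : ℤ√(-(n : ℤ))) +
          (v : ℤ√(-(n : ℤ))) * (X : ℤ√(-(n : ℤ))) = 1 := by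
        have h4 := congrArg (fun t : ℤ => (t : ℤ√(-(n : ℤ)))) huv
        simp only [Int.cast_add, Int.cast_mul, Int.cast_one] at h4
        exact h4
      calc ζ = 1 * ζ := (one_mul ζ).symm
        _ = _ := by rw [← h3]; ring
    have h5 := Ideal.add_mem _ (Ideal.mul_mem_left _ (u : ℤ√(-(n : ℤ))) hm3)
      (Ideal.mul_mem_left _ (v : ℤ√(-(n : ℤ)))
        (Ideal.sub_mem _ (Ideal.mul_mem_left _ (2 * (B : ℤ√(-(n : ℤ)))) hm2) hm1))
    rwa [← h1] at h5

end ring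

end Pool.Agent.Lib_MP_6050fa
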