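import Pool.Agent.Lib_MP_6050fa.Ideals

/-!
MP_6050fa_nt.  If more powers of an ideal are equivalent to reduced ideals than there are reduced
ideals, then the order of its class is small.
-/

namespace Pool.Agent.Lib_MP_6050fa

open Zsqrtd

variable {n : ℕ}

theorem order_lemma (hn : 2 ≤ n) {I : Ideal (ℤ√(-(n : ℤ)))} {E M : ℕ} (hE : 0 < E)
    {ζ : ℤ√(-(n : ℤ))} (hζ : ζ ≠ 0) (hIE : I ^ E = Ideal.span {ζ})
    (hred : ∀ j ∈ Finset.Icc 1 M, ∃ p : ℕ × ℕ, p ∈ S n ∧
        ∃ α β : ℤ√(-(n : ℤ)), α ≠ 0 ∧ β ≠ 0 ∧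
          Ideal.span {α} * I ^ j = Ideal.span {β} * J n p.1 p.2)
    (hM : (S n).card < M) :
    ∃ (t : ℕ) (γ : ℤ√(-(n : ℤ))), 0 < t ∧ t < M ∧ t ∣ E ∧
      (ζ = γ ^ (E / t) ∨ ζ = -γ ^ (E / t)) := by
  have hn0 : 0 < n := by omega
  have := nzd hn0
  have := dom hn0
  have hex : ∃ t, 0 < t ∧ ∃ w, I ^ t = Ideal.span {w} := ⟨E, hE, ζ, hIE⟩
  classical
  set t := Nat.find hex with ht
  obtain ⟨ht0, γ, hγ⟩ := Nat.find_spec hex
  rw [← ht] at ht0 hγ
  have hγ0 : γ ≠ 0 := by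
    intro h0
    have h1 : I ^ t = ⊥ := by rw [hγ, h0]; simp
    have h2 : I = ⊥ := by
      have h4 : I ^ t = 0 := h1
      exact pow_eq_zero_iff ht0.ne' |>.1 h4
    rw [h2] at hIE
    have h3 : (⊥ : Ideal (ℤ√(-(n : ℤ)))) ^ E = ⊥ := by
      have : (0 : Ideal (ℤ√(-(n : ℤ)))) ^ E = 0 := zero_pow hE.ne'
      exact this
    rw [h3] at hIE
    exact hζ (Ideal.span_singleton_eq_bot.1 hIE.symm)
  -- the exponents of principal powers are multiples of `t`
  have hmul : ∀ s, (∃ w, I ^ s = Ideal.span {w}) → t ∣ s := by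
    rintro s ⟨w, hw⟩
    have hdecomp : Ideal.span {γ ^ (s / t)} * I ^ (s % t) = Ideal.span {w} := by
      rw [← Ideal.span_singleton_pow, ← hγ, ← pow_mul, ← pow_add, Nat.div_add_mod, hw]
    by_contra hr
    have hr2 : s % t ≠ 0 := fun h => hr (Nat.dvd_of_mod_eq_zero h)
    have h1 := princ hn0 (pow_ne_zero _ hγ0) hdecomp
    have h2 := Nat.find_min' hex ⟨Nat.pos_of_ne_zero hr2, h1⟩
    have h3 := Nat.mod_lt s ht0
    omega
  have htE : t ∣ E := hmul E ⟨ζ, hIE⟩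
  have htM : t < M := by
    rcases Nat.lt_or_ge E M with hEM | hEM
    · exact lt_of_le_of_lt (Nat.le_of_dvd hE htE) hEM
    · choose! f hf using hred
      obtain ⟨a, ha, b, hb, hab, hfab⟩ := Finset.exists_ne_map_eq_of_card_lt_of_maps_to
        (s := Finset.Icc 1 M) (t := S n) (f := f) (by simpa using hM)
        (fun j hj => (hf j hj).1)
      have key : ∀ a ∈ Finset.Icc 1 M, ∀ b ∈ Finset.Icc 1 M, a < b → f a = f b → t < M := by
        intro a ha b hb hab hfab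
        obtain ⟨_, α, β, hα, hβ, h1⟩ := hf a ha
        obtain ⟨_, α', β', hα', hβ', h2⟩ := hf b hb
        rw [Finset.mem_Icc] at ha hb
        rw [hfab] at h1
        have h3 : ∃ w, I ^ (a + (E - b)) = Ideal.span {w} := by
          refine princ (α := α * β') (ρ := β * α' * ζ) hn0 (mul_ne_zero hα hβ') ?_
          calc Ideal.span {α * β'} * I ^ (a + (E - b))
              = Ideal.span {β'} * (Ideal.span {α} * I ^ a) * I ^ (E - b) := by
                rw [← Ideal.span_singleton_mul_span_singleton, pow_add]; ring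
            _ = Ideal.span {β} * (Ideal.span {β'} * J n (f b).1 (f b).2) * I ^ (E - b) := by
                rw [h1]; ring
            _ = Ideal.span {β} * (Ideal.span {α'} * (I ^ b * I ^ (E - b))) := by
                rw [← h2]; ring
            _ = Ideal.span {β * α' * ζ} := by
                rw [← pow_add, show b + (E - b) = E by omega, hIE,
                  Ideal.span_singleton_mul_span_singleton, Ideal.span_singleton_mul_span_singleton,
                  mul_assoc]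
        have h4 := hmul _ h3
        have h5 : t ∣ b - a := by
          have h6 : t ∣ E - (a + (E - b)) := Nat.dvd_sub htE h4
          rwa [show E - (a + (E - b)) = b - a by omega] at h6
        have h6 := Nat.le_of_dvd (by omega) h5
        omega
      rcases lt_or_gt_of_ne hab with h1 | h1
      · exact key a ha b hb h1 hfab
      · exact key b hb a ha h1 hfab.symm
  refine ⟨t, γ, ht0, htM, htE, ?_⟩
  have h1 : Ideal.span {γ ^ (E / t)} = Ideal.span {ζ} := by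
    rw [← Ideal.span_singleton_pow, ← hγ, ← pow_mul, Nat.mul_div_cancel' htE, hIE]
  obtain ⟨u, hu⟩ := Ideal.span_singleton_eq_span_singleton.1 h1
  rcases unit_eq hn u.isUnit with h2 | h2
  · left
    rw [← hu, h2, mul_one]
  · right
    rw [← hu, h2, mul_neg, mul_one]

/-- powers of `(x, Y + √(-n))` are equivalent to reduced ideals -/
theorem pow_red (hn : 0 < n) {x : ℕ} (hx : 0 < x) {Y : ℤ} {e : ℕ} (h : (x : ℤ) ^ e ∣ Y ^ 2 + n)
    (hc : IsCoprime (x : ℤ) (2 * Y)) {M : ℕ} (hM : M ≤ e) :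
    ∀ j ∈ Finset.Icc 1 M, ∃ p : ℕ × ℕ, p ∈ S n ∧
        ∃ α β : ℤ√(-(n : ℤ)), α ≠ 0 ∧ β ≠ 0 ∧
          Ideal.span {α} * (J n x Y) ^ j = Ideal.span {β} * J n p.1 p.2 := by
  intro j hj
  rw [Finset.mem_Icc] at hj
  obtain ⟨c, b, h1, h2, h3, h4, α, β, hα, hβ, h5⟩ := red hn (x ^ j) (by positivity) Y
    (by
      refine dvd_trans ?_ h
      push_cast
      exact pow_dvd_pow _ (hj.2.trans hM))
  refine ⟨(c, b), mem_S h1 h2 h3 h4, α, β, hα, hβ, ?_⟩
  have h6 : J n ((x ^ j : ℕ) : ℤ) Y = (J n x Y) ^ j := by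
    obtain ⟨i, rfl⟩ : ∃ i, j = i + 1 := ⟨j - 1, by omega⟩
    exact J_pow h hc i (hj.2.trans hM)
  rw [← h6]
  exact h5

/-- **Main step for Q1.** -/
theorem core1 {e x : ℕ} {A B : ℤ} (hn : 2 ≤ n) (he : 0 < e) (hx : 0 < x) (hen : e ∣ n)
    (h : A * (x : ℤ) ^ e = (A * B) ^ 2 + n) (hc1 : IsCoprime A (x : ℤ))
    (hc2 : IsCoprime (x : ℤ) (2 * (A * B))) {n1 k : ℕ} (hn1 : Odd n1) (hek : e = 2 ^ k * n1)
    (hB : ∀ q : ℕ, q.Prime → q ∣ e → ¬ (q : ℤ) ∣ B) : n1 ≤ (S n).card := by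
  by_contra hcon
  push Not at hcon
  have hn0 : 0 < n := by omega
  have := nzd hn0
  have := dom hn0
  have hn1e : n1 ≤ e := by
    rw [hek]
    exact Nat.le_mul_of_pos_left _ (by positivity)
  set ζ : ℤ√(-(n : ℤ)) := ⟨2 * B * (A * B) - (x : ℤ) ^ e, 2 * B⟩ with hζ
  have hsq := J_sq (n := n) (X := (x : ℤ) ^ e) (A := A) (B := B) h hc1.pow_right
  have hdvd : (x : ℤ) ^ e ∣ (A * B) ^ 2 + n := by rw [← h]; exact dvd_mul_left _ _
  have hI : (J n x (A * B)) ^ (2 * e) = Ideal.span {ζ} := by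
    obtain ⟨i, hi⟩ : ∃ i, e = i + 1 := ⟨e - 1, by omega⟩
    have h1 := J_pow (n := n) hdvd hc2 i (by omega)
    rw [← hi] at h1
    rw [mul_comm 2 e, pow_mul, ← h1, hζ, ← hsq]
    push_cast
    rfl
  have hx' : (x : ℤ) ≠ 0 := by exact_mod_cast hx.ne'
  have hζ0 : ζ ≠ 0 := by
    intro h0
    have h1 := congrArg Zsqrtd.re h0
    have h2 := congrArg Zsqrtd.im h0
    simp [hζ] at h1 h2
    rw [h2] at h1
    simp at h1
    exact hx.ne' h1.1
  obtain ⟨t, γ, ht0, htM, htE, hγ⟩ := order_lemma hn (E := 2 * e) (M := n1) (by omega) hζ0 hI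
    (pow_red hn0 hx hdvd hc2 hn1e) hcon
  obtain ⟨l, hl⟩ := htE
  have hlt : 2 * e / t = l := by rw [hl]; exact Nat.mul_div_cancel_left l ht0
  rw [hlt] at hγ
  -- an odd prime factor of `l`
  have hq : ∃ q, q.Prime ∧ q ∣ l ∧ q ≠ 2 := by
    by_contra hno
    push Not at hno
    have hl0 : l ≠ 0 := by
      rintro rfl
      omega
    have h2 : l = 2 ^ l.primeFactorsList.length :=
      Nat.eq_prime_pow_of_unique_prime_dvd hl0 (fun {d} hd hd2 => hno d hd hd2)
    have h3 : n1 ∣ t * l := by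
      rw [← hl, hek]
      exact ⟨2 * 2 ^ k, by ring⟩
    have h4 : Nat.Coprime n1 l := by
      rw [h2]
      exact Nat.Coprime.pow_right _ (Nat.coprime_two_right.2 hn1)
    have h5 := h4.dvd_of_dvd_mul_right h3
    have h6 := Nat.le_of_dvd ht0 h5
    omega
  obtain ⟨q, hqp, ⟨r, hr⟩, hq2⟩ := hq
  have hq2e : q ∣ 2 * e := by
    rw [hl, hr]
    exact ⟨t * r, by ring⟩
  have hqe : q ∣ e := by
    rcases (Nat.Prime.dvd_mul hqp).1 hq2e with h1 | h1
    · exact absurd ((Nat.prime_dvd_prime_iff_eq hqp Nat.prime_two).1 h1) hq2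
    · exact h1
  have him := im_pow_self (n := n) hqp.pos (hqe.trans hen) (γ ^ r)
  rw [← pow_mul, mul_comm r q, ← hr] at him
  have h2B : (q : ℤ) ∣ 2 * B := by
    have h3 : ζ.im = 2 * B := rfl
    rcases hγ with h4 | h4
    · rw [← h3, h4]; exact him
    · rw [← h3, h4, im_neg]; exact (dvd_neg).2 him
  have hqZ : Prime (q : ℤ) := Nat.prime_iff_prime_int.1 hqp
  rcases hqZ.dvd_or_dvd h2B with h3 | h3
  · have h4 : q ∣ 2 := by exact_mod_cast h3
    exact hq2 ((Nat.prime_dvd_prime_iff_eq hqp Nat.prime_two).1 h4)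
  · exact hB q hqp hqe h3

end Pool.Agent.Lib_MP_6050fa
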