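import Mathlib

/-!
MP_6050fa_nt.  `X ^ q - σ ^ q = y ^ m` with `X = x ^ k`, `k q = s ^ q`, `|σ| = s`, `q ∣ s`: the number
`X - σ` is an `m`-th power.
-/

namespace Pool.Agent.Lib_MP_6050fa

theorem exists_pow_of_padic {a m : ℕ} (ha : a ≠ 0)
    (h : ∀ r : ℕ, r.Prime → m ∣ padicValNat r a) : ∃ u, a = u ^ m := by
  refine ⟨a.factorization.prod (fun p e => p ^ (e / m)), ?_⟩
  rw [Finsupp.prod, ← Finset.prod_pow]
  conv_lhs => rw [← Nat.prod_factorization_pow_eq_self ha, Finsupp.prod]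
  refine Finset.prod_congr rfl fun p hp => ?_
  have hpp : p.Prime := Nat.prime_of_mem_primeFactors (by simpa using hp)
  have h1 := h p hpp
  rw [← Nat.factorization_def a hpp] at h1
  rw [← pow_mul, Nat.div_mul_cancel h1]

/-- the structure of the first factor -/
theorem first_factor {x k q s y m : ℕ} {σ : ℤ} (hq : q.Prime) (hqs : q ∣ s) (hs : 0 < s)
    (hk : k * q = s ^ q) (hσ : σ.natAbs = s) (hy : 0 < y) (hqm : Nat.Coprime m q)
    {a : ℕ} (ha : 0 < a) (haX : (a : ℤ) = (x : ℤ) ^ k - σ)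
    (h : (y : ℤ) ^ m = ((x : ℤ) ^ k) ^ q - σ ^ q) : ∃ u, a = u ^ m := by
  refine exists_pow_of_padic ha.ne' fun r hr => ?_
  have := Fact.mk hr
  set X : ℤ := (x : ℤ) ^ k with hX
  obtain ⟨F, hF⟩ : (X - σ) ∣ X ^ q - σ ^ q := sub_dvd_pow_sub_pow X σ q
  by_cases hra : r ∣ a
  swap
  · rw [padicValNat.eq_zero_of_not_dvd hra]
    exact dvd_zero _
  have hFpos : 0 < F := by
    by_contra hc
    push Not at hc
    have h1 : (0 : ℤ) < (y : ℤ) ^ m := by positivity
    rw [h, hF, ← haX] at h1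
    have ha' : (0 : ℤ) < a := by exact_mod_cast ha
    nlinarith
  obtain ⟨F', hF'⟩ : ∃ F' : ℕ, (F' : ℤ) = F := ⟨F.toNat, Int.toNat_of_nonneg hFpos.le⟩
  have hprod : y ^ m = a * F' := by
    have : ((y ^ m : ℕ) : ℤ) = ((a * F' : ℕ) : ℤ) := by
      push_cast
      rw [h, hF, ← haX, hF']
    exact_mod_cast this
  have hF'0 : F' ≠ 0 := by
    rintro rfl
    rw [← hF'] at hFpos
    simp at hFpos
  by_cases hrF : r ∣ F'
  swap
  · have h1 : padicValNat r (y ^ m) = padicValNat r a := by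
      rw [hprod, padicValNat.mul ha.ne' hF'0, padicValNat.eq_zero_of_not_dvd hrF, add_zero]
    rw [← h1, padicValNat.pow]
    exact dvd_mul_right _ _
  -- both factors divisible by `r`
  have hr1 : (r : ℤ) ∣ X - σ := by rw [← haX]; exact_mod_cast hra
  have hr2 : (r : ℤ) ∣ F := by rw [← hF']; exact_mod_cast hrF
  have hrZ : Prime (r : ℤ) := Nat.prime_iff_prime_int.1 hr
  have hsum : F = ∑ i ∈ Finset.range q, X ^ i * σ ^ (q - 1 - i) := by
    have h1 := Commute.geom_sum₂_mul (Commute.all X σ) q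
    have h2 : X - σ ≠ 0 := by
      rw [← haX]
      exact_mod_cast ha.ne'
    have h3 : (X - σ) * F = (X - σ) * ∑ i ∈ Finset.range q, X ^ i * σ ^ (q - 1 - i) := by
      rw [← hF, ← h1, mul_comm]
    exact mul_left_cancel₀ h2 h3
  have hrσ : (r : ℤ) ∣ σ := by
    have h1 : (r : ℤ) ∣ F - q * σ ^ (q - 1) := by
      have h2 : F - q * σ ^ (q - 1) =
          ∑ i ∈ Finset.range q, (X ^ i * σ ^ (q - 1 - i) - σ ^ (q - 1)) := by
        rw [Finset.sum_sub_distrib, ← hsum]
        simp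
      rw [h2]
      refine Finset.dvd_sum fun i hi => ?_
      rw [Finset.mem_range] at hi
      have h3 : σ ^ (q - 1) = σ ^ i * σ ^ (q - 1 - i) := by
        rw [← pow_add]
        congr 1
        omega
      rw [h3, ← sub_mul]
      exact Dvd.dvd.mul_right (hr1.trans (sub_dvd_pow_sub_pow X σ i)) _
    have h2 : (r : ℤ) ∣ q * σ ^ (q - 1) := (dvd_sub_right hr2).1 h1
    rcases hrZ.dvd_or_dvd h2 with h3 | h3
    · have h4 : r ∣ q := by exact_mod_cast h3
      have h5 : r ∣ σ.natAbs := by rw [hσ]; exact h4.trans hqs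
      exact Int.natCast_dvd.2 h5
    · exact hrZ.dvd_of_dvd_pow h3
  have hrX : (r : ℤ) ∣ X := by
    have := dvd_add hr1 hrσ
    simpa using this
  have hrx : r ∣ x := by
    have h1 : (r : ℤ) ∣ (x : ℤ) := hrZ.dvd_of_dvd_pow hrX
    exact_mod_cast h1
  obtain ⟨x', rfl⟩ := hrx
  -- the valuation of `s`
  obtain ⟨f, s', hs', hfs⟩ := Nat.exists_eq_pow_mul_and_not_dvd hs.ne' r hr.ne_one
  have hσ0 : σ ≠ 0 := by
    rintro rfl
    simp at hσ
    omega
  obtain ⟨τ, hτ, hτr⟩ : ∃ τ : ℤ, σ = (r : ℤ) ^ f * τ ∧ ¬ (r : ℤ) ∣ τ := by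
    have h1 : (r : ℤ) ^ f ∣ σ := by
      have : r ^ f ∣ σ.natAbs := by rw [hσ, hfs]; exact dvd_mul_right _ _
      have h2 := Int.natCast_dvd.2 this
      exact_mod_cast h2
    obtain ⟨τ, hτ⟩ := h1
    refine ⟨τ, hτ, fun h2 => ?_⟩
    obtain ⟨w, rfl⟩ := h2
    have h3 : r ^ (f + 1) ∣ s := by
      rw [← hσ]
      have : ((r ^ (f + 1) : ℕ) : ℤ) ∣ σ := by
        rw [hτ]
        push_cast
        exact ⟨w, by ring⟩
      exact Int.natCast_dvd.1 this
    rw [hfs, pow_succ] at h3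
    exact hs' (Nat.dvd_of_mul_dvd_mul_left (pow_pos hr.pos f) h3)
  have hfk : f < k := by
    have h1 : f < r ^ f := Nat.lt_pow_self hr.one_lt
    have h2 : r ^ f ≤ s := Nat.le_of_dvd hs (by rw [hfs]; exact dvd_mul_right _ _)
    have h3 : q ≤ s := Nat.le_of_dvd hs hqs
    have h4 : s * q ≤ k * q := by
      rw [hk]
      calc s * q ≤ s * s := Nat.mul_le_mul_left _ h3
        _ = s ^ 2 := by ring
        _ ≤ s ^ q := Nat.pow_le_pow_right hs hq.two_le
    have h5 : s ≤ k := Nat.le_of_mul_le_mul_right h4 hq.pos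
    omega
  have hXr : X = (r : ℤ) ^ f * ((r : ℤ) * ((r : ℤ) ^ (k - f - 1) * (x' : ℤ) ^ k)) := by
    rw [hX]
    push_cast
    rw [mul_pow]
    have : (r : ℤ) ^ k = (r : ℤ) ^ f * ((r : ℤ) * (r : ℤ) ^ (k - f - 1)) := by
      rw [← pow_succ', ← pow_add]
      congr 1
      omega
    rw [this]
    ring
  set X₁ : ℤ := (r : ℤ) * ((r : ℤ) ^ (k - f - 1) * (x' : ℤ) ^ k) with hX₁
  have hval : padicValNat r a = f := by
    have h1 : (a : ℤ) = (r : ℤ) ^ f * (X₁ - τ) := by
      rw [haX, hXr, hτ]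
      ring
    have h2 : ¬ (r : ℤ) ∣ X₁ - τ := by
      intro h3
      exact hτr ((dvd_sub_right (dvd_mul_right _ _)).1 h3)
    have h3 : padicValInt r (a : ℤ) = f := by
      rw [h1, padicValInt.mul (by have := hr.pos; positivity) (fun h0 => h2 (by rw [h0]; exact dvd_zero _))]
      have h4 : padicValInt r ((r : ℤ) ^ f) = f := by
        have := padicValNat.prime_pow (p := r) f
        rw [← padicValInt.of_nat] at this
        push_cast at this
        exact this
      have h5 : padicValInt r (X₁ - τ) = 0 := padicValInt.eq_zero_of_not_dvd h2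
      rw [h4, h5, add_zero]
    rwa [padicValInt.of_nat] at h3
  have hvaly : m * padicValNat r y = q * f := by
    have h1 : ((y ^ m : ℕ) : ℤ) = (r : ℤ) ^ (q * f) * (X₁ ^ q - τ ^ q) := by
      push_cast
      rw [h, hXr, hτ, mul_pow, mul_pow, ← pow_mul, mul_comm f q]
      ring
    have h2 : ¬ (r : ℤ) ∣ X₁ ^ q - τ ^ q := by
      intro h3
      have h4 : (r : ℤ) ∣ X₁ ^ q := dvd_pow (dvd_mul_right _ _) hq.ne_zero
      exact hτr (hrZ.dvd_of_dvd_pow ((dvd_sub_right h4).1 h3))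
    have h3 : padicValInt r ((y ^ m : ℕ) : ℤ) = q * f := by
      rw [h1, padicValInt.mul (by have := hr.pos; positivity) (fun h0 => h2 (by rw [h0]; exact dvd_zero _))]
      have h4 : padicValInt r ((r : ℤ) ^ (q * f)) = q * f := by
        have := padicValNat.prime_pow (p := r) (q * f)
        rw [← padicValInt.of_nat] at this
        push_cast at this
        exact this
      have h5 : padicValInt r (X₁ ^ q - τ ^ q) = 0 := padicValInt.eq_zero_of_not_dvd h2
      rw [h4, h5, add_zero]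
    rw [padicValInt.of_nat, padicValNat.pow] at h3
    exact h3
  rw [hval]
  exact hqm.dvd_of_dvd_mul_left ⟨_, hvaly.symm⟩

end Pool.Agent.Lib_MP_6050fa
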