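import Pool.Agent.Lib_MP_6050fa.Binom

/-!
# `y ^ m = (u ^ m + σ) ^ q - σ ^ q` for `2 ≤ m < q`
-/

namespace Pool.Agent.Lib_MP_6050fa

open Finset

theorem num_ne {q m : ℕ} (hq : q.Prime) (hm : 2 ≤ m) (hmq : m < q) (j : ℕ) : num q m j ≠ 0 := by
  unfold num
  rw [Finset.prod_ne_zero_iff]
  intro i _ h
  have h1 : q = i * m := by
    have : (q : ℤ) = i * m := by linarith
    exact_mod_cast this
  have h2 : m ∣ q := ⟨i, by rw [h1, mul_comm]⟩
  rcases (Nat.dvd_prime hq).1 h2 with h3 | h3 <;> omega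

theorem num_le {q m J : ℕ} (hJ : J * m ≤ q) : |(num q m (J + 1) : ℝ)| ≤ (q : ℝ) ^ (J + 1) := by
  unfold num
  push_cast
  rw [Finset.abs_prod]
  calc ∏ i ∈ range (J + 1), |(q : ℝ) - i * m| ≤ ∏ _i ∈ range (J + 1), (q : ℝ) := by
        refine Finset.prod_le_prod (fun i _ => abs_nonneg _) fun i hi => ?_
        have h1 : i ≤ J := by
          have := Finset.mem_range.1 hi
          omega
        have h2 : i * m ≤ q := (Nat.mul_le_mul_right m h1).trans hJ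
        have h3 : (i : ℝ) * m ≤ q := by exact_mod_cast h2
        have h4 : (0 : ℝ) ≤ (i : ℝ) * m := by positivity
        rw [abs_of_nonneg (by linarith)]
        linarith
    _ = (q : ℝ) ^ (J + 1) := by rw [Finset.prod_const, Finset.card_range]

/-- the integer `D u ^ q P (t)` -/
def intN (q m J : ℕ) (σ : ℤ) (u : ℕ) : ℤ :=
  ∑ j ∈ range (J + 1), (m : ℤ) ^ (J - j) * ((J.factorial / j.factorial : ℕ) : ℤ) * num q m j * σ ^ j *
    (u : ℤ) ^ (q - m * j)

theorem intN_eq {q m J u : ℕ} {σ : ℤ} (hm : 0 < m) (hJ : J * m ≤ q) (hu : 0 < u) :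
    (intN q m J σ u : ℝ) = (m : ℝ) ^ J * J.factorial * ((u : ℝ) ^ q *
      ∑ j ∈ range (J + 1), Ring.choose ((q : ℝ) / m) j * ((σ : ℝ) / (u : ℝ) ^ m) ^ j) := by
  unfold intN
  simp only [Int.cast_sum, Int.cast_mul, Int.cast_pow, Int.cast_natCast]
  rw [Finset.mul_sum, Finset.mul_sum]
  refine Finset.sum_congr rfl fun j hj => ?_
  have h1 : j ≤ J := by
    have := Finset.mem_range.1 hj
    omega
  have h2 : m * j ≤ q := by
    rw [mul_comm]
    exact (Nat.mul_le_mul_right m h1).trans hJ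
  have hur : (0 : ℝ) < u := by exact_mod_cast hu
  have h3 : (u : ℝ) ^ q = (u : ℝ) ^ (q - m * j) * ((u : ℝ) ^ m) ^ j := by
    rw [← pow_mul, ← pow_add]
    congr 1
    omega
  have h4 : (m : ℝ) ^ J = (m : ℝ) ^ (J - j) * (m : ℝ) ^ j := by
    rw [← pow_add]
    congr 1
    omega
  have h5 : (J.factorial : ℝ) = ((J.factorial / j.factorial : ℕ) : ℝ) * j.factorial := by
    have := Nat.div_mul_cancel (Nat.factorial_dvd_factorial h1)
    exact_mod_cast this.symm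
  rw [← choose_num hm j, div_pow, h3, h4]
  rw [h5]
  have h6 : ((u : ℝ) ^ m) ^ j ≠ 0 := by positivity
  field_simp

/-- size of the denominators -/
theorem den_le {m q J : ℕ} (hm : 2 ≤ m) (hmq : m < q) (hJ : J * m ≤ q) :
    m ^ (J + 1) * (J + 1).factorial ≤ (2 * q) ^ q := by
  have h1 : (J + 1).factorial ≤ (J + 1) ^ (J + 1) := Nat.factorial_le_pow _
  have h2 : J + 1 ≤ q := by
    have : J * 2 ≤ q := (Nat.mul_le_mul_left J hm).trans hJ
    omega
  have h3 : m * (J + 1) ≤ 2 * q := by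
    have : m * (J + 1) = J * m + m := by ring
    omega
  calc m ^ (J + 1) * (J + 1).factorial ≤ m ^ (J + 1) * (J + 1) ^ (J + 1) := Nat.mul_le_mul_left _ h1
    _ = (m * (J + 1)) ^ (J + 1) := (mul_pow _ _ _).symm
    _ ≤ (2 * q) ^ (J + 1) := Nat.pow_le_pow_left h3 _
    _ ≤ (2 * q) ^ q := Nat.pow_le_pow_right (by omega) h2

theorem u_large {m q s u J : ℕ} (hmq : m < q) (hqs : q ≤ s) (hJ : J * m ≤ q)
    (hU : 6 ^ q * s ^ (4 * q) < u ^ m) : (q * s) ^ (J + 1) < u := by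
  by_contra hcon
  push Not at hcon
  have h1 : (J + 1) * m ≤ 2 * q := by
    have : (J + 1) * m = J * m + m := by ring
    omega
  have h2 : u ^ m ≤ s ^ (4 * q) := by
    calc u ^ m ≤ ((q * s) ^ (J + 1)) ^ m := Nat.pow_le_pow_left hcon m
      _ = (q * s) ^ ((J + 1) * m) := (pow_mul _ _ _).symm
      _ ≤ (s * s) ^ ((J + 1) * m) := Nat.pow_le_pow_left (Nat.mul_le_mul_right s hqs) _
      _ ≤ (s * s) ^ (2 * q) := Nat.pow_le_pow_right (by
          have : 0 < s := by omega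
          positivity) h1
      _ = s ^ (4 * q) := by
          rw [← pow_two, ← pow_mul]
          congr 1
          ring
  have h3 : s ^ (4 * q) ≤ 6 ^ q * s ^ (4 * q) := Nat.le_mul_of_pos_left _ (by positivity)
  omega

theorem two_pow_le (q : ℕ) (hq : 2 ≤ q) : 8 * 2 ^ q ≤ 6 ^ q := by
  have h1 : 8 ≤ 3 ^ q := by
    calc 8 ≤ 3 ^ 2 := by norm_num
      _ ≤ 3 ^ q := Nat.pow_le_pow_right (by norm_num) hq
  calc 8 * 2 ^ q ≤ 3 ^ q * 2 ^ q := Nat.mul_le_mul_right _ h1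
    _ = 6 ^ q := by rw [← mul_pow]; norm_num

theorem caseB {m q s u y : ℕ} {σ : ℤ} (hq : q.Prime) (hq5 : 5 ≤ q) (hm : 2 ≤ m) (hmq : m < q)
    (hqs : q ≤ s) (hσ : σ.natAbs = s) (hU : 6 ^ q * s ^ (4 * q) < u ^ m)
    (h : (y : ℤ) ^ m = ((u : ℤ) ^ m + σ) ^ q - σ ^ q) : False := by
  set J := q / m with hJdef
  have hJ1 : J * m ≤ q := Nat.div_mul_le_self q m
  have hJ2 : q + 1 ≤ m * (J + 1) := by
    have := Nat.lt_mul_div_succ q (by omega : 0 < m)
    rw [← hJdef] at this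
    omega
  have hJpos : 1 ≤ J := (Nat.one_le_div_iff (by omega)).2 hmq.le
  have hden := den_le hm hmq hJ1
  have hularge := u_large hmq hqs hJ1 hU
  have hs0 : 0 < s := by omega
  have hu0 : 0 < u := by omega
  -- real quantities
  have hur : (0 : ℝ) < u := by exact_mod_cast hu0
  have hu1 : (1 : ℝ) ≤ u := by exact_mod_cast hu0
  have hsr : (1 : ℝ) ≤ s := by exact_mod_cast hs0
  have hmr : (2 : ℝ) ≤ m := by exact_mod_cast hm
  set U : ℝ := (u : ℝ) ^ m with hUdef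
  have hUr : (6 : ℝ) ^ q * (s : ℝ) ^ (4 * q) < U := by
    rw [hUdef]
    exact_mod_cast hU
  have hσabs : |(σ : ℝ)| = s := by
    rw [← hσ, Nat.cast_natAbs, Int.cast_abs]
  -- sizes
  have hsize : 8 * (2 : ℝ) ^ q * (s : ℝ) ^ (2 * q) ≤ (6 : ℝ) ^ q * (s : ℝ) ^ (4 * q) := by
    have h1 : (8 : ℝ) * 2 ^ q ≤ 6 ^ q := by exact_mod_cast two_pow_le q (by omega)
    have h2 : (s : ℝ) ^ (2 * q) ≤ (s : ℝ) ^ (4 * q) := pow_le_pow_right₀ hsr (by omega)
    exact mul_le_mul h1 h2 (by positivity) (by positivity)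
  have hss : (s : ℝ) ≤ (s : ℝ) ^ (2 * q) := by
    calc (s : ℝ) = (s : ℝ) ^ 1 := (pow_one _).symm
      _ ≤ (s : ℝ) ^ (2 * q) := pow_le_pow_right₀ hsr (by omega)
  have h2q : (4 : ℝ) ≤ 2 ^ q := by
    calc (4 : ℝ) = 2 ^ 2 := by norm_num
      _ ≤ 2 ^ q := pow_le_pow_right₀ (by norm_num) (by omega)
  have hs4 : 32 * (s : ℝ) < U := by
    have h1 : 8 * (4 : ℝ) * s ≤ 8 * (2 : ℝ) ^ q * (s : ℝ) ^ (2 * q) :=
      mul_le_mul (by linarith) hss (by positivity) (by positivity)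
    linarith
  have hUpos : 0 < U := by linarith
  set t : ℝ := σ / U with htdef
  have htabs : |t| = s / U := by
    rw [htdef, abs_div, hσabs, abs_of_pos hUpos]
  have ht4 : |t| ≤ 1 / 4 := by
    rw [htabs, div_le_div_iff₀ hUpos (by norm_num)]
    linarith
  have ht1 : 0 < 1 + t := by
    have := (abs_le.1 ht4).1
    linarith
  set α : ℝ := (q : ℝ) / m with hα
  set A : ℝ := U + σ with hA
  have hAU : A = U * (1 + t) := by
    rw [hA, htdef]
    field_simp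
  have hσle : -(s : ℝ) ≤ σ := by
    rw [← hσabs]
    exact neg_abs_le _
  have hA2 : U / 2 ≤ A := by
    rw [hA]
    linarith
  have hA1 : 1 ≤ A := by linarith
  set Y : ℝ := (u : ℝ) ^ q * (1 + t) ^ α with hY
  have hYpos : 0 < Y := by positivity
  have hYm : Y ^ m = A ^ q := by
    rw [hY, mul_pow, ← Real.rpow_natCast ((1 + t) ^ α) m, ← Real.rpow_mul ht1.le]
    have h1 : α * m = q := by
      rw [hα]
      field_simp
    rw [h1, Real.rpow_natCast, hAU, mul_pow, hUdef, ← pow_mul, ← pow_mul, mul_comm q m]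
  have hYA : A ^ 2 ≤ Y ^ (m - 1) := by
    rw [← pow_le_pow_iff_left₀ (by positivity) (by positivity) (by omega : m ≠ 0)]
    calc (A ^ 2) ^ m = A ^ (2 * m) := (pow_mul _ _ _).symm
      _ ≤ A ^ (q * (m - 1)) := by
          apply pow_le_pow_right₀ hA1
          obtain ⟨r, rfl⟩ : ∃ r, m = r + 2 := ⟨m - 2, by omega⟩
          have : r + 2 - 1 = r + 1 := by omega
          rw [this]
          calc 2 * (r + 2) ≤ 5 * (r + 1) := by omega
            _ ≤ q * (r + 1) := Nat.mul_le_mul_right _ hq5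
      _ = (Y ^ m) ^ (m - 1) := by rw [hYm, ← pow_mul]
      _ = (Y ^ (m - 1)) ^ m := by rw [← pow_mul, ← pow_mul, mul_comm]
  have hyr : (y : ℝ) ^ m = A ^ q - (σ : ℝ) ^ q := by
    rw [hA, hUdef]
    exact_mod_cast h
  have hdiff : |(y : ℝ) - Y| * A ^ 2 ≤ (s : ℝ) ^ q := by
    have h1 : (∑ i ∈ range m, (y : ℝ) ^ i * Y ^ (m - 1 - i)) * ((y : ℝ) - Y) = (y : ℝ) ^ m - Y ^ m :=
      geom_sum₂_mul _ _ _
    have h2 : |(y : ℝ) ^ m - Y ^ m| = (s : ℝ) ^ q := by
      rw [hyr, hYm, sub_sub_cancel_left, abs_neg, abs_pow, hσabs]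
    have h3 : Y ^ (m - 1) ≤ ∑ i ∈ range m, (y : ℝ) ^ i * Y ^ (m - 1 - i) := by
      have h4 := Finset.single_le_sum (f := fun i => (y : ℝ) ^ i * Y ^ (m - 1 - i)) (s := range m)
        (fun i _ => by positivity) (Finset.mem_range.2 (by omega : 0 < m))
      simpa using h4
    have h5 : 0 ≤ ∑ i ∈ range m, (y : ℝ) ^ i * Y ^ (m - 1 - i) := le_trans (by positivity) h3
    rw [← h1, abs_mul, abs_of_nonneg h5] at h2
    rw [← h2, mul_comm]
    exact mul_le_mul_of_nonneg_right (hYA.trans h3) (abs_nonneg _)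
  -- the remainder
  set P : ℝ := ∑ j ∈ range (J + 1), Ring.choose α j * t ^ j with hP
  have hαJ : α < J + 1 := by
    rw [hα, div_lt_iff₀ (by linarith)]
    have : (q : ℝ) + 1 ≤ m * (J + 1) := by exact_mod_cast hJ2
    linarith
  obtain ⟨hrem1, hrem2⟩ := binom_rem (α := α) (t := t) (J := J) (by positivity) hαJ ht4
  rw [← hP] at hrem1 hrem2
  set D : ℝ := (m : ℝ) ^ J * J.factorial with hD
  set M : ℝ := (m : ℝ) ^ (J + 1) * (J + 1).factorial with hM
  have hmJ : (4 : ℝ) ≤ m * (J + 1) := by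
    have h1 : (1 : ℝ) ≤ J := by exact_mod_cast hJpos
    calc (4 : ℝ) = 2 * 2 := by norm_num
      _ ≤ m * (J + 1) := mul_le_mul hmr (by linarith) (by norm_num) (by positivity)
  have hDpos : 0 < D := by positivity
  have hMpos : 0 < M := by positivity
  have hMD : M = D * (m * (J + 1)) := by
    rw [hM, hD, Nat.factorial_succ]
    push_cast
    ring
  have hnum := choose_num (q := q) (by omega : 0 < m) (J + 1)
  rw [← hα, ← hM] at hnum
  have hcabs : M * |Ring.choose α (J + 1)| = |(num q m (J + 1) : ℝ)| := by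
    rw [← hnum, abs_mul, abs_of_pos hMpos]
  have hnum1 : 1 ≤ |(num q m (J + 1) : ℝ)| := by
    have h1 := Int.one_le_abs (num_ne hq hm hmq (J + 1))
    exact_mod_cast h1
  have hnum2 := num_le (q := q) (m := m) hJ1
  set κ : ℝ := |Ring.choose α (J + 1)| * |t| ^ (J + 1) with hκ
  have hκ0 : 0 ≤ κ := by positivity
  have hMκ : M * κ * U ^ (J + 1) = |(num q m (J + 1) : ℝ)| * (s : ℝ) ^ (J + 1) := by
    rw [hκ, htabs, div_pow, ← mul_assoc, hcabs]
    field_simp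
  have hUJ : U ^ J ≤ (u : ℝ) ^ q := by
    rw [hUdef, ← pow_mul]
    exact pow_le_pow_right₀ hu1 (by rw [mul_comm]; exact hJ1)
  have hUJ1 : (u : ℝ) ^ q * u ≤ U ^ (J + 1) := by
    rw [hUdef, ← pow_mul, ← pow_succ]
    exact pow_le_pow_right₀ hu1 hJ2
  -- upper bound
  have hup : 2 * (D * ((u : ℝ) ^ q * κ)) < 1 / 2 := by
    have h1 : D * ((u : ℝ) ^ q * κ) * u * (m * (J + 1)) ≤ ((q : ℝ) * s) ^ (J + 1) := by
      calc D * ((u : ℝ) ^ q * κ) * u * (m * (J + 1)) = M * κ * ((u : ℝ) ^ q * u) := by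
            rw [hMD]; ring
        _ ≤ M * κ * U ^ (J + 1) := mul_le_mul_of_nonneg_left hUJ1 (by positivity)
        _ = |(num q m (J + 1) : ℝ)| * (s : ℝ) ^ (J + 1) := hMκ
        _ ≤ (q : ℝ) ^ (J + 1) * (s : ℝ) ^ (J + 1) := mul_le_mul_of_nonneg_right hnum2 (by positivity)
        _ = ((q : ℝ) * s) ^ (J + 1) := (mul_pow _ _ _).symm
    have h2 : ((q : ℝ) * s) ^ (J + 1) < u := by exact_mod_cast hularge
    have h3 : (4 : ℝ) ≤ m * (J + 1) := hmJ
    have h4 : 0 ≤ D * ((u : ℝ) ^ q * κ) * u := by positivity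
    have h5 : D * ((u : ℝ) ^ q * κ) * u * 4 ≤ D * ((u : ℝ) ^ q * κ) * u * (m * (J + 1)) :=
      mul_le_mul_of_nonneg_left h3 h4
    have h6 : (D * ((u : ℝ) ^ q * κ) * 4) * u < 1 * u := by linarith
    have h7 := lt_of_mul_lt_mul_right h6 hur.le
    linarith
  -- `D |y - Y| < 1 / 2`
  have hMle : M ≤ (2 : ℝ) ^ q * (s : ℝ) ^ q := by
    have h1 : M ≤ (2 * (q : ℝ)) ^ q := by
      rw [hM]
      exact_mod_cast hden
    have h2 : (2 * (q : ℝ)) ^ q ≤ (2 * (s : ℝ)) ^ q := by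
      apply pow_le_pow_left₀ (by positivity)
      have : (q : ℝ) ≤ s := by exact_mod_cast hqs
      linarith
    rw [← mul_pow]
    exact h1.trans h2
  have hDM : D ≤ M := by
    rw [hMD]
    have h1 : (1 : ℝ) ≤ m * (J + 1) := by linarith [hmJ]
    exact le_mul_of_one_le_right hDpos.le h1
  have hss2 : (s : ℝ) ^ q * (s : ℝ) ^ q = (s : ℝ) ^ (2 * q) := by rw [← pow_add, two_mul]
  have hMs : 8 * (M * (s : ℝ) ^ q) < U := by
    have h1 : M * (s : ℝ) ^ q ≤ (2 : ℝ) ^ q * (s : ℝ) ^ q * (s : ℝ) ^ q :=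
      mul_le_mul_of_nonneg_right hMle (by positivity)
    have h2 : (2 : ℝ) ^ q * (s : ℝ) ^ q * (s : ℝ) ^ q = 2 ^ q * (s : ℝ) ^ (2 * q) := by
      rw [← hss2]
      ring
    rw [h2] at h1
    linarith
  have hDy : D * |(y : ℝ) - Y| < 1 / 2 := by
    by_contra hcon
    push Not at hcon
    have h1 : 1 / 2 * A ^ 2 ≤ D * (s : ℝ) ^ q := by
      calc 1 / 2 * A ^ 2 ≤ D * |(y : ℝ) - Y| * A ^ 2 := mul_le_mul_of_nonneg_right hcon (by positivity)
        _ = D * (|(y : ℝ) - Y| * A ^ 2) := by ring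
        _ ≤ D * (s : ℝ) ^ q := mul_le_mul_of_nonneg_left hdiff hDpos.le
    have h2 : D * (s : ℝ) ^ q ≤ M * (s : ℝ) ^ q := mul_le_mul_of_nonneg_right hDM (by positivity)
    have h3 : A ≤ A ^ 2 := le_self_pow₀ hA1 two_ne_zero
    linarith
  -- the integer
  have hN := intN_eq (q := q) (m := m) (J := J) (u := u) (σ := σ) (by omega) hJ1 hu0
  rw [← hα, ← hUdef, ← htdef, ← hP, ← hD] at hN
  have hsmall : |D * (y : ℝ) - (intN q m J σ u : ℝ)| < 1 := by
    have h1 : D * (y : ℝ) - (intN q m J σ u : ℝ) = D * ((y : ℝ) - Y) +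
        D * ((u : ℝ) ^ q * ((1 + t) ^ α - P)) := by
      rw [hN, hY]; ring
    rw [h1]
    refine lt_of_le_of_lt (abs_add_le _ _) ?_
    have hu2 : |(u : ℝ) ^ q| = (u : ℝ) ^ q := abs_of_pos (by positivity)
    rw [abs_mul D, abs_mul D, abs_mul ((u : ℝ) ^ q), abs_of_pos hDpos, hu2]
    have h2 : D * ((u : ℝ) ^ q * |(1 + t) ^ α - P|) ≤ D * ((u : ℝ) ^ q * (2 * κ)) :=
      mul_le_mul_of_nonneg_left (mul_le_mul_of_nonneg_left hrem1 (by positivity)) hDpos.le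
    have h3 : D * ((u : ℝ) ^ q * (2 * κ)) = 2 * (D * ((u : ℝ) ^ q * κ)) := by ring
    linarith
  have hint : (m : ℤ) ^ J * J.factorial * y = intN q m J σ u := by
    have h1 : |(m : ℤ) ^ J * J.factorial * y - intN q m J σ u| < 1 := by
      have h2 : ((|(m : ℤ) ^ J * J.factorial * y - intN q m J σ u| : ℤ) : ℝ) < 1 := by
        push_cast
        exact hsmall
      exact_mod_cast h2
    have := Int.abs_lt_one_iff.1 h1
    linarith
  have hyP : (y : ℝ) = (u : ℝ) ^ q * P := by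
    have h1 : D * (y : ℝ) = D * ((u : ℝ) ^ q * P) := by
      rw [← hN, ← hint, hD]
      push_cast
      ring
    exact mul_left_cancel₀ hDpos.ne' h1
  -- lower bound
  have hlow : |(y : ℝ) - Y| = (u : ℝ) ^ q * |(1 + t) ^ α - P| := by
    have hu2 : |(u : ℝ) ^ q| = (u : ℝ) ^ q := abs_of_pos (by positivity)
    rw [hyP, hY, ← mul_sub, abs_mul, hu2, abs_sub_comm]
  have h1 : 1 ≤ M * ((u : ℝ) ^ q * κ) * U := by
    have h2 : U ^ (J + 1) ≤ M * κ * U ^ (J + 1) * U ^ (J + 1) := by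
      rw [hMκ]
      have h3 : (1 : ℝ) ≤ |(num q m (J + 1) : ℝ)| * (s : ℝ) ^ (J + 1) :=
        one_le_mul_of_one_le_of_one_le hnum1 (one_le_pow₀ hsr)
      exact le_mul_of_one_le_left (by positivity) h3
    have h4 : U ^ (J + 1) * 1 ≤ U ^ (J + 1) * (M * κ * U ^ (J + 1)) := by linarith
    have h5 := le_of_mul_le_mul_left h4 (by positivity)
    calc 1 ≤ M * κ * U ^ (J + 1) := h5
      _ = M * κ * U * U ^ J := by ring
      _ ≤ M * κ * U * (u : ℝ) ^ q := mul_le_mul_of_nonneg_left hUJ (by positivity)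
      _ = M * ((u : ℝ) ^ q * κ) * U := by ring
  have h2 : (u : ℝ) ^ q * κ ≤ 2 * |(y : ℝ) - Y| := by
    rw [hlow]
    have := mul_le_mul_of_nonneg_left hrem2 (by positivity : (0 : ℝ) ≤ (u : ℝ) ^ q)
    linarith
  have h3 : A ^ 2 ≤ 2 * (M * (s : ℝ) ^ q) * U := by
    have h4 : 1 ≤ M * (2 * |(y : ℝ) - Y|) * U := by
      refine h1.trans ?_
      exact mul_le_mul_of_nonneg_right (mul_le_mul_of_nonneg_left h2 hMpos.le) hUpos.le
    calc A ^ 2 = 1 * A ^ 2 := (one_mul _).symm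
      _ ≤ M * (2 * |(y : ℝ) - Y|) * U * A ^ 2 := mul_le_mul_of_nonneg_right h4 (by positivity)
      _ = 2 * (M * U) * (|(y : ℝ) - Y| * A ^ 2) := by ring
      _ ≤ 2 * (M * U) * (s : ℝ) ^ q := mul_le_mul_of_nonneg_left hdiff (by positivity)
      _ = 2 * (M * (s : ℝ) ^ q) * U := by ring
  have h4 : (U / 2) ^ 2 ≤ A ^ 2 := pow_le_pow_left₀ (by positivity) hA2 2
  have h5 : U * U ≤ 8 * (M * (s : ℝ) ^ q) * U := by
    have h7 : (U / 2) ^ 2 = U * U / 4 := by ring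
    linarith
  have h6 := le_of_mul_le_mul_right h5 hUpos
  linarith

end Pool.Agent.Lib_MP_6050fa
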