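import Pool.Agent.Lib_MP_6050fa.Power

/-!
# Coprime exponents; the small cases; `x ^ (4 r ^ 4) + 4 r ^ 4`
-/

namespace Pool.Agent.Lib_MP_6050fa

theorem pow_gap {a b k : ℕ} (h : b < a) :
    b ^ (k + 2) + a ^ (k + 1) + b ^ (k + 1) ≤ a ^ (k + 2) := by
  have h1 : (b + 1) * a ^ (k + 1) ≤ a ^ (k + 2) := by
    rw [pow_succ a (k + 1), mul_comm]
    exact Nat.mul_le_mul_left _ h
  have h2 : b ^ (k + 1) + b ^ k ≤ a ^ (k + 1) := by
    calc b ^ (k + 1) + b ^ k = b ^ k * (b + 1) := by ring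
      _ ≤ a ^ k * a := Nat.mul_le_mul (Nat.pow_le_pow_left h.le k) h
      _ = a ^ (k + 1) := (pow_succ a k).symm
  have h3 : b * (b ^ (k + 1) + b ^ k) ≤ b * a ^ (k + 1) := Nat.mul_le_mul_left _ h2
  have h4 : b * (b ^ (k + 1) + b ^ k) = b ^ (k + 2) + b ^ (k + 1) := by ring
  have h5 : (b + 1) * a ^ (k + 1) = b * a ^ (k + 1) + a ^ (k + 1) := by ring
  omega

theorem size {n1 k : ℕ} (hn : 1 ≤ n1) : (k + 2) * n1 < (2 ^ n1) ^ (k + 1) + 2 := by
  have h0 : n1 + 1 ≤ 2 ^ n1 := Nat.lt_two_pow_self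
  rcases Nat.eq_zero_or_pos k with rfl | hk
  · have : 2 * n1 ≤ 2 ^ n1 := by
      obtain ⟨i, rfl⟩ : ∃ i, n1 = i + 1 := ⟨n1 - 1, by omega⟩
      have : i + 1 ≤ 2 ^ i := Nat.lt_two_pow_self
      rw [pow_succ]
      omega
    simp only [Nat.zero_add, pow_one]
    omega
  · have h1 : n1 * k + 1 ≤ 2 ^ (n1 * k) := Nat.lt_two_pow_self
    have h2 : (2 ^ n1) ^ (k + 1) = 2 ^ (n1 * k) * 2 ^ n1 := by
      rw [← pow_mul, ← pow_add]
      congr 1
    have h3 : (n1 * k + 1) * (n1 + 1) ≤ 2 ^ (n1 * k) * 2 ^ n1 := Nat.mul_le_mul h1 h0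
    rw [h2]
    nlinarith [Nat.mul_le_mul hn (le_refl (n1 * k))]

/-- solutions of either equation have coprime exponents -/
theorem coprime_exponents {x n y m : ℕ} (hx : 2 ≤ x) (hn : 2 ≤ n) (hy : 2 ≤ y) (hm : 2 ≤ m)
    (h : x ^ n = y ^ m + n ∨ x ^ n + n = y ^ m) : Nat.Coprime m n := by
  by_contra hc
  obtain ⟨p, hp, hpm, hpn⟩ := Nat.Prime.not_coprime_iff_dvd.1 hc
  obtain ⟨m1, rfl⟩ := hpm
  obtain ⟨n1, rfl⟩ := hpn
  obtain ⟨k, rfl⟩ : ∃ k, p = k + 2 := ⟨p - 2, by have := hp.two_le; omega⟩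
  have hn1 : 1 ≤ n1 := by
    by_contra h1
    have : n1 = 0 := by omega
    subst this
    omega
  have hm1 : 1 ≤ m1 := by
    by_contra h1
    have : m1 = 0 := by omega
    subst this
    omega
  rw [mul_comm (k + 2) m1, mul_comm (k + 2) n1, pow_mul, pow_mul] at h
  set a := x ^ n1 with ha
  set b := y ^ m1 with hb
  have ha2 : 2 ^ n1 ≤ a := Nat.pow_le_pow_left hx n1
  have hb2 : 2 ≤ b := by
    calc 2 ≤ y := hy
      _ = y ^ 1 := (pow_one y).symm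
      _ ≤ y ^ m1 := Nat.pow_le_pow_right (by omega) hm1
  have hsz := size (k := k) hn1
  have ha3 : (2 ^ n1) ^ (k + 1) ≤ a ^ (k + 1) := Nat.pow_le_pow_left ha2 _
  have hb3 : 2 ≤ b ^ (k + 1) := by
    calc 2 ≤ b := hb2
      _ = b ^ 1 := (pow_one b).symm
      _ ≤ b ^ (k + 1) := Nat.pow_le_pow_right (by omega) (by omega)
  rw [mul_comm n1] at h
  rcases h with h | h
  · have hlt : b < a := by
      have : b ^ (k + 2) < a ^ (k + 2) := by
        rw [h]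
        have : 0 < (k + 2) * n1 := by positivity
        omega
      exact lt_of_pow_lt_pow_left' _ this
    have := pow_gap (k := k) hlt
    omega
  · have hlt : a < b := by
      have : a ^ (k + 2) < b ^ (k + 2) := by
        rw [← h]
        have : 0 < (k + 2) * n1 := by positivity
        omega
      exact lt_of_pow_lt_pow_left' _ this
    have := pow_gap (k := k) hlt
    omega


/-- `q = 3`, `m = 2` -/
theorem case32 {s u y : ℕ} {σ : ℤ} (hs : 3 ≤ s) (hσ : σ.natAbs = s) (hU : s ^ 4 < u ^ 2)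
    (h : (y : ℤ) ^ 2 = ((u : ℤ) ^ 2 + σ) ^ 3 - σ ^ 3) : False := by
  set U : ℤ := (u : ℤ) ^ 2 with hUd
  have hUZ : (s : ℤ) ^ 4 < U := by
    rw [hUd]
    exact_mod_cast hU
  have hs3 : (3 : ℤ) ≤ s := by exact_mod_cast hs
  have h27 : 27 * (s : ℤ) ≤ (s : ℤ) ^ 4 := by
    have h1 : (3 : ℤ) ^ 3 ≤ (s : ℤ) ^ 3 := pow_le_pow_left₀ (by norm_num) hs3 3
    have h2 : (s : ℤ) ^ 4 = (s : ℤ) ^ 3 * s := by ring
    rw [h2]
    nlinarith
  have hsq : 3 * (s : ℤ) ^ 2 ≤ (s : ℤ) ^ 4 := by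
    have h1 : (3 : ℤ) ^ 2 ≤ (s : ℤ) ^ 2 := pow_le_pow_left₀ (by norm_num) hs3 2
    have h2 : (s : ℤ) ^ 4 = (s : ℤ) ^ 2 * (s : ℤ) ^ 2 := by ring
    rw [h2]
    nlinarith [sq_nonneg (s : ℤ)]
  have hσ2 : σ ^ 2 = (s : ℤ) ^ 2 := by
    rw [← hσ, ← Int.natAbs_pow_two]
  have hσle : -(s : ℤ) ≤ σ := by
    have := neg_abs_le σ
    rw [Int.abs_eq_natAbs, hσ] at this
    exact this
  have h1 : (y : ℤ) ^ 2 = (u : ℤ) ^ 2 * (U ^ 2 + 3 * σ * U + 3 * σ ^ 2) := by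
    rw [h]
    ring
  have hu0 : 0 < u := Nat.pos_of_ne_zero (by
    rintro rfl
    simp at hU)
  have huy : (u : ℤ) ∣ y := (Int.pow_dvd_pow_iff two_ne_zero).1 ⟨_, h1⟩
  obtain ⟨v, hv⟩ := huy
  have h2 : v ^ 2 = U ^ 2 + 3 * σ * U + 3 * σ ^ 2 := by
    have h3 : (u : ℤ) ^ 2 * v ^ 2 = (u : ℤ) ^ 2 * (U ^ 2 + 3 * σ * U + 3 * σ ^ 2) := by
      rw [← h1, hv]
      ring
    exact mul_left_cancel₀ (by positivity) h3
  have hz : 0 < 2 * U + 3 * σ := by linarith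
  have h3 : (2 * U + 3 * σ) ^ 2 < (2 * v) ^ 2 := by
    have h4 : (2 * v) ^ 2 = (2 * U + 3 * σ) ^ 2 + 3 * σ ^ 2 := by
      rw [mul_pow, h2]
      ring
    rw [h4, hσ2]
    have : 0 < (s : ℤ) ^ 2 := by positivity
    linarith
  have h5 : 2 * U + 3 * σ < |2 * v| := by
    rw [← sq_abs (2 * v)] at h3
    exact lt_of_pow_lt_pow_left₀ 2 (abs_nonneg _) h3
  have h6 : (2 * U + 3 * σ + 1) ^ 2 ≤ (2 * v) ^ 2 := by
    rw [← sq_abs (2 * v)]
    exact pow_le_pow_left₀ (by linarith) (by linarith) 2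
  rw [mul_pow, h2] at h6
  have h7 : 2 * (2 * U + 3 * σ) + 1 ≤ 3 * σ ^ 2 := by linarith
  rw [hσ2] at h7
  linarith

/-- `x ^ 4 - 4` -/
theorem case4 {x y m : ℕ} (hx : 2 ≤ x) (hy : 0 < y) (hm : 3 ≤ m) (hm2 : Nat.Coprime m 2)
    (h : x ^ 4 = y ^ m + 4) : False := by
  have hx2 : 4 ≤ x ^ 2 := by
    calc 4 = 2 ^ 2 := by norm_num
      _ ≤ x ^ 2 := Nat.pow_le_pow_left hx 2
  obtain ⟨a, ha⟩ : ∃ a, x ^ 2 = a + 2 := ⟨x ^ 2 - 2, by omega⟩
  have ha0 : 0 < a := by omega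
  have haZ : (x : ℤ) ^ 2 = a + 2 := by exact_mod_cast ha
  obtain ⟨u, hu⟩ := first_factor (x := x) (k := 2) (q := 2) (s := 2) (y := y) (m := m) (σ := 2)
    Nat.prime_two (dvd_refl 2) (by norm_num) (by norm_num) (by rfl) hy hm2 ha0
    (by rw [haZ]; ring) (by
      have h1 : (x : ℤ) ^ 4 = y ^ m + 4 := by exact_mod_cast h
      rw [← pow_mul, show 2 * 2 = 4 from rfl]
      linarith)
  have h1 : y ^ m = u ^ m * (u ^ m + 4) := by
    have h2 : x ^ 4 = (x ^ 2) ^ 2 := by ring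
    rw [h2, ha, hu] at h
    nlinarith
  have hu0 : 0 < u := Nat.pos_of_ne_zero (by
    rintro rfl
    rw [zero_pow (by omega)] at hu
    omega)
  obtain ⟨v, rfl⟩ := (Nat.pow_dvd_pow_iff (by omega : m ≠ 0)).1 (Dvd.intro _ h1.symm)
  rw [mul_pow] at h1
  have h2 : v ^ m = u ^ m + 4 := Nat.eq_of_mul_eq_mul_left (by positivity) h1
  have huv : u < v := by
    have : u ^ m < v ^ m := by omega
    exact lt_of_pow_lt_pow_left' _ this
  obtain ⟨k, rfl⟩ : ∃ k, m = k + 2 := ⟨m - 2, by omega⟩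
  have h3 := pow_gap (k := k) huv
  have h4 : 4 ≤ v ^ (k + 1) := by
    calc 4 = 2 ^ 2 := by norm_num
      _ ≤ v ^ 2 := Nat.pow_le_pow_left (by omega) 2
      _ ≤ v ^ (k + 1) := Nat.pow_le_pow_right (by omega) (by omega)
  have h5 : 0 < u ^ (k + 1) := by positivity
  omega

/-- the common valuations of the two factors of `X ^ 4 + 4 r ^ 4` -/
theorem sg_val {x r p : ℕ} (hp : p.Prime) (hr : 0 < r) {P Q : ℕ}
    (hP : (P : ℤ) = ((x : ℤ) ^ (r ^ 4)) ^ 2 - 2 * r * (x : ℤ) ^ (r ^ 4) + 2 * r ^ 2)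
    (hQ : (Q : ℤ) = ((x : ℤ) ^ (r ^ 4)) ^ 2 + 2 * r * (x : ℤ) ^ (r ^ 4) + 2 * r ^ 2)
    (hpP : p ∣ P) (hpQ : p ∣ Q) : padicValNat p P = padicValNat p Q := by
  have := Fact.mk hp
  have hpZ : Prime (p : ℤ) := Nat.prime_iff_prime_int.1 hp
  set X : ℤ := (x : ℤ) ^ (r ^ 4) with hX
  have h1 : (p : ℤ) ∣ X ^ 2 - 2 * r * X + 2 * r ^ 2 := by rw [← hP]; exact_mod_cast hpP
  have h2 : (p : ℤ) ∣ X ^ 2 + 2 * r * X + 2 * r ^ 2 := by rw [← hQ]; exact_mod_cast hpQ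
  have hpX : (p : ℤ) ∣ X := by
    have h3 : (p : ℤ) ∣ 2 * (2 * (r * X)) := by
      have := dvd_sub h2 h1
      have e : X ^ 2 + 2 * r * X + 2 * r ^ 2 - (X ^ 2 - 2 * r * X + 2 * r ^ 2) = 2 * (2 * (r * X)) := by ring
      rwa [e] at this
    have h4 : (p : ℤ) ∣ 2 ∨ (p : ℤ) ∣ r * X := by
      rcases hpZ.dvd_or_dvd h3 with h | h
      · exact Or.inl h
      · exact hpZ.dvd_or_dvd h
    have hsub : ∀ c : ℤ, (p : ℤ) ∣ c → c ∣ 2 * r * X - 2 * r ^ 2 → (p : ℤ) ∣ X := by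
      intro c hc hc2
      have h5 : (p : ℤ) ∣ X ^ 2 := by
        have e : X ^ 2 = (X ^ 2 - 2 * r * X + 2 * r ^ 2) + (2 * r * X - 2 * r ^ 2) := by ring
        rw [e]
        exact dvd_add h1 (hc.trans hc2)
      exact hpZ.dvd_of_dvd_pow h5
    rcases h4 with h | h
    · exact hsub 2 h ⟨r * X - r ^ 2, by ring⟩
    · rcases hpZ.dvd_or_dvd h with h5 | h5
      · exact hsub r h5 ⟨2 * X - 2 * r, by ring⟩
      · exact h5
  have hpx : p ∣ x := by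
    have h3 : (p : ℤ) ∣ (x : ℤ) := hpZ.dvd_of_dvd_pow hpX
    exact_mod_cast h3
  have h2r : (p : ℤ) ∣ 2 * r ^ 2 := by
    have e : (2 * r ^ 2 : ℤ) = (X ^ 2 - 2 * r * X + 2 * r ^ 2) - X * (X - 2 * r) := by ring
    rw [e]
    exact dvd_sub h1 (hpX.mul_right _)
  have hp2r : (p : ℤ) ∣ 2 * r := by
    rcases hpZ.dvd_or_dvd h2r with h | h
    · exact h.mul_right _
    · exact (hpZ.dvd_of_dvd_pow h).mul_left _
  have hXbig : (p : ℤ) ^ (r ^ 4) ∣ X := by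
    rw [hX]
    exact pow_dvd_pow_of_dvd (by exact_mod_cast hpx) _
  -- the valuation of `2 r ^ 2`
  have h2r0 : 2 * r ^ 2 ≠ 0 := by positivity
  obtain ⟨f, w, hw, hfw⟩ := Nat.exists_eq_pow_mul_and_not_dvd h2r0 p hp.ne_one
  have hf : f + 1 ≤ r ^ 4 + 1 := by
    have h3 : f < p ^ f := Nat.lt_pow_self hp.one_lt
    have h4 : p ^ f ≤ 2 * r ^ 2 := Nat.le_of_dvd (by positivity) (by rw [hfw]; exact dvd_mul_right _ _)
    have h5 : 2 * r ^ 2 ≤ r ^ 4 + 1 := by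
      have : (2 * r ^ 2 : ℤ) ≤ r ^ 4 + 1 := by nlinarith [sq_nonneg ((r : ℤ) ^ 2 - 1)]
      exact_mod_cast this
    omega
  have hval : ∀ (A : ℕ) (c : ℤ), (p : ℤ) ∣ c → (A : ℤ) = X * c + 2 * r ^ 2 → padicValNat p A = f := by
    intro A c hc hA
    have h3 : (p : ℤ) ^ (f + 1) ∣ X * c := by
      refine (pow_dvd_pow _ hf).trans ?_
      rw [pow_succ]
      exact mul_dvd_mul hXbig hc
    obtain ⟨z, hz⟩ := h3
    have h4 : (A : ℤ) = (p : ℤ) ^ f * (p * z + w) := by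
      have h5 : ((2 * r ^ 2 : ℕ) : ℤ) = ((p ^ f * w : ℕ) : ℤ) := by rw [hfw]
      push_cast at h5
      rw [hA, hz, h5]
      ring
    have h6 : ¬ (p : ℤ) ∣ p * z + w := by
      intro h7
      have h8 : (p : ℤ) ∣ w := (dvd_add_right (dvd_mul_right _ _)).1 h7
      exact hw (by exact_mod_cast h8)
    have h7 : padicValInt p (A : ℤ) = f := by
      rw [h4, padicValInt.mul (by have := hp.pos; positivity) (fun h0 => h6 (by rw [h0]; exact dvd_zero _))]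
      have h8 : padicValInt p ((p : ℤ) ^ f) = f := by
        have := padicValNat.prime_pow (p := p) f
        rw [← padicValInt.of_nat] at this
        push_cast at this
        exact this
      have h9 : padicValInt p (p * z + w : ℤ) = 0 := padicValInt.eq_zero_of_not_dvd h6
      rw [h8, h9, add_zero]
    rwa [padicValInt.of_nat] at h7
  rw [hval P (X - 2 * r) (dvd_sub hpX hp2r) (by rw [hP]; ring),
    hval Q (X + 2 * r) (dvd_add hpX hp2r) (by rw [hQ]; ring)]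

theorem sg_small : ∀ z < 66, 3 ≤ z → ∀ v < 17, ∀ m < 13, 3 ≤ m → z ^ 2 + 1 ≠ v ^ m := by
  decide +kernel

/-- `x ^ n + n = y ^ m` for `n = 4 r ^ 4` -/
theorem sophie_germain {x r y m : ℕ} (hx : 2 ≤ x) (hr : 0 < r) (hy : 2 ≤ y) (hm : 2 ≤ m)
    (h : x ^ (4 * r ^ 4) + 4 * r ^ 4 = y ^ m) : False := by
  have hn : 2 ≤ 4 * r ^ 4 := by
    have : 0 < r ^ 4 := by positivity
    omega
  have hcop := coprime_exponents hx hn hy hm (Or.inr h)
  have hm2 : Nat.Coprime m 2 := hcop.coprime_dvd_right ⟨2 * r ^ 4, by ring⟩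
  have hm3 : 3 ≤ m := by
    by_contra h1
    have : m = 2 := by omega
    subst this
    norm_num at hm2
  set X := x ^ (r ^ 4) with hX
  have hX2 : 2 ^ (r ^ 4) ≤ X := Nat.pow_le_pow_left hx _
  have hXr : r < X := by
    have h1 : r ≤ r ^ 4 := Nat.le_self_pow (by norm_num) r
    have h2 : r ^ 4 < 2 ^ (r ^ 4) := Nat.lt_two_pow_self
    omega
  obtain ⟨e, he⟩ : ∃ e, X = r + e := ⟨X - r, by omega⟩
  have he0 : 0 < e := by omega
  set P := e ^ 2 + r ^ 2 with hP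
  set Q := (X + r) ^ 2 + r ^ 2 with hQ
  have hPQ : P * Q = y ^ m := by
    rw [← h]
    have h1 : x ^ (4 * r ^ 4) = X ^ 4 := by
      rw [hX, ← pow_mul]
      congr 1
      ring
    rw [h1, hP, hQ, he]
    ring
  have hPZ : (P : ℤ) = ((x : ℤ) ^ (r ^ 4)) ^ 2 - 2 * r * (x : ℤ) ^ (r ^ 4) + 2 * r ^ 2 := by
    have h1 : ((x : ℤ) ^ (r ^ 4)) = r + e := by exact_mod_cast he
    rw [h1, hP]
    push_cast
    ring
  have hQZ : (Q : ℤ) = ((x : ℤ) ^ (r ^ 4)) ^ 2 + 2 * r * (x : ℤ) ^ (r ^ 4) + 2 * r ^ 2 := by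
    have h1 : (X : ℤ) = (x : ℤ) ^ (r ^ 4) := by
      rw [hX]
      push_cast
      rfl
    rw [← h1, hQ]
    push_cast
    ring
  have hP0 : P ≠ 0 := by positivity
  have hQ0 : Q ≠ 0 := by positivity
  have hvs : ∀ p : ℕ, p.Prime → padicValNat p P + padicValNat p Q = m * padicValNat p y := by
    intro p hp
    have := Fact.mk hp
    rw [← padicValNat.mul hP0 hQ0, hPQ, padicValNat.pow]
  have hcases : ∀ p : ℕ, p.Prime → m ∣ padicValNat p P ∧ m ∣ padicValNat p Q := by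
    intro p hp
    have := Fact.mk hp
    have h1 := hvs p hp
    by_cases hpP : p ∣ P
    · by_cases hpQ : p ∣ Q
      · have h2 := sg_val hp hr hPZ hQZ hpP hpQ
        rw [← h2] at h1 ⊢
        have h3 : m ∣ padicValNat p P * 2 := ⟨padicValNat p y, by omega⟩
        exact ⟨hm2.dvd_of_dvd_mul_right h3, hm2.dvd_of_dvd_mul_right h3⟩
      · rw [padicValNat.eq_zero_of_not_dvd hpQ] at h1 ⊢
        rw [add_zero] at h1
        exact ⟨⟨_, h1⟩, dvd_zero _⟩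
    · rw [padicValNat.eq_zero_of_not_dvd hpP] at h1 ⊢
      rw [zero_add] at h1
      exact ⟨dvd_zero _, ⟨_, h1⟩⟩
  obtain ⟨u, hu⟩ := exists_pow_of_padic hP0 fun p hp => (hcases p hp).1
  obtain ⟨v, hv⟩ := exists_pow_of_padic hQ0 fun p hp => (hcases p hp).2
  have hdiff : v ^ m = u ^ m + 4 * r * X := by
    rw [← hu, ← hv, hP, hQ, he]
    ring
  have huv : u < v := by
    have : u ^ m < v ^ m := by
      have : 0 < 4 * r * X := by positivity
      omega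
    exact lt_of_pow_lt_pow_left' _ this
  obtain ⟨k, rfl⟩ : ∃ k, m = k + 2 := ⟨m - 2, by omega⟩
  have h3 := pow_gap (k := k) huv
  have h4 : v ^ (k + 1) ≤ 4 * r * X := by omega
  have hv0 : 0 < v := by omega
  have h5 : (X ^ 2) ^ 2 ≤ (4 * r * X) ^ 3 := by
    calc (X ^ 2) ^ 2 ≤ Q ^ 2 := by
          apply Nat.pow_le_pow_left
          rw [hQ]
          nlinarith
      _ = v ^ (2 * (k + 2)) := by rw [hv, ← pow_mul, mul_comm]
      _ ≤ v ^ (3 * (k + 1)) := Nat.pow_le_pow_right hv0 (by omega)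
      _ = (v ^ (k + 1)) ^ 3 := by rw [← pow_mul, mul_comm]
      _ ≤ (4 * r * X) ^ 3 := Nat.pow_le_pow_left h4 3
  have hX0 : 0 < X := by omega
  have h6 : X ≤ 64 * r ^ 3 := by
    have h7 : X ^ 3 * X ≤ X ^ 3 * (64 * r ^ 3) := by
      calc X ^ 3 * X = (X ^ 2) ^ 2 := by ring
        _ ≤ (4 * r * X) ^ 3 := h5
        _ = X ^ 3 * (64 * r ^ 3) := by ring
    exact Nat.le_of_mul_le_mul_left h7 (by positivity)
  rcases Nat.lt_or_ge r 2 with hr2 | hr2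
  · have hr1 : r = 1 := by omega
    subst hr1
    have hX64 : X ≤ 64 := by omega
    have hQ1 : (X + 1) ^ 2 + 1 = v ^ (k + 2) := by rw [← hv, hQ]; ring
    have hb : (X + 1) ^ 2 + 1 ≤ 4226 := by
      have : (X + 1) ^ 2 ≤ 65 ^ 2 := Nat.pow_le_pow_left (by omega) 2
      omega
    have hv2 : 2 ≤ v := by
      by_contra h8
      have : v = 1 := by omega
      subst this
      rw [one_pow] at hQ1
      have : 0 < (X + 1) ^ 2 := by positivity
      omega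
    have hv17 : v < 17 := by
      by_contra h8
      push Not at h8
      have h9 : 17 ^ 3 ≤ v ^ (k + 2) := by
        calc 17 ^ 3 ≤ v ^ 3 := Nat.pow_le_pow_left h8 3
          _ ≤ v ^ (k + 2) := Nat.pow_le_pow_right hv0 hm3
      omega
    have hm13 : k + 2 < 13 := by
      by_contra h8
      push Not at h8
      have h9 : 2 ^ 13 ≤ v ^ (k + 2) := by
        calc 2 ^ 13 ≤ v ^ 13 := Nat.pow_le_pow_left hv2 13
          _ ≤ v ^ (k + 2) := Nat.pow_le_pow_right hv0 h8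
      omega
    exact sg_small (X + 1) (by omega) (by omega) v hv17 (k + 2) hm13 hm3 hQ1
  · have h8 : 8 * r ≤ r ^ 4 := by
      calc 8 * r = 2 ^ 3 * r := by norm_num
        _ ≤ r ^ 3 * r := Nat.mul_le_mul_right _ (Nat.pow_le_pow_left hr2 3)
        _ = r ^ 4 := by ring
    have h9 : 2 ^ (8 * r) ≤ 2 ^ (r ^ 4) := Nat.pow_le_pow_right (by norm_num) h8
    have h10 : 2 ^ (8 * r) = (2 ^ r) ^ 3 * 2 ^ (5 * r) := by
      rw [← pow_mul, ← pow_add]
      congr 1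
      ring
    have h11 : r ^ 3 ≤ (2 ^ r) ^ 3 := Nat.pow_le_pow_left Nat.lt_two_pow_self.le 3
    have h12 : 2 ^ 10 ≤ 2 ^ (5 * r) := Nat.pow_le_pow_right (by norm_num) (by omega)
    have h13 : r ^ 3 * 2 ^ 10 ≤ (2 ^ r) ^ 3 * 2 ^ (5 * r) := Nat.mul_le_mul h11 h12
    have h14 : 0 < r ^ 3 := by positivity
    omega

end Pool.Agent.Lib_MP_6050fa
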